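import Pool.Agent.Lib_helper50.WMP.Defs

open Filter Topology

namespace WMPProj

variable {𝕂 : Type*} [RCLike 𝕂] {E F : Type*} [NormedAddCommGroup E] [NormedSpace 𝕂 E]
  [NormedAddCommGroup F] [NormedSpace 𝕂 F]

lemma exists_unit_near {f : E →L[𝕂] F} {s : ℝ} (hs0 : 0 ≤ s) (hs : s < ‖f‖) :
    ∃ x : E, ‖x‖ = 1 ∧ s < ‖f x‖ := by
  obtain ⟨x, hx1, hx2⟩ := f.exists_lt_apply_of_lt_opNorm hs
  have hx0 : x ≠ 0 := by
    rintro rfl; simp at hx2; linarith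
  have hpos : 0 < ‖x‖ := norm_pos_iff.mpr hx0
  refine ⟨((‖x‖⁻¹ : ℝ) : 𝕂) • x, ?_, ?_⟩
  · rw [norm_smul, RCLike.norm_ofReal, abs_of_pos (inv_pos.mpr hpos)]
    field_simp
  · rw [map_smul, norm_smul, RCLike.norm_ofReal, abs_of_pos (inv_pos.mpr hpos)]
    have : 1 ≤ ‖x‖⁻¹ := (one_le_inv₀ hpos).mpr hx1.le
    nlinarith [norm_nonneg (f x)]

/-- Abstract scheme producing a failure of the weak maximizing property. -/
theorem not_wmp_of_scheme [CompleteSpace F]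
    (A : ℕ → E →L[𝕂] F) (VE : E → E) (VF : F → F)
    (hVE : ∀ x, ‖VE x‖ = ‖x‖) (hVF : ∀ x, ‖VF x‖ = ‖x‖)
    (φ : E →L[𝕂] 𝕂) (hφ : ∀ x, φ (VE x) = φ x)
    (h1 : ∀ N k, N ≤ k → ∀ x, A N (VE^[k] x) = VF^[k] (A 0 x))
    (h2 : ∀ N x, ‖A N x‖ ≤ ‖A 0 x‖)
    (h3 : ∀ x, (∀ N, ‖A N x‖ = ‖A 0 x‖) → ‖A 0 x‖ ≤ ‖x‖)
    (h4 : 1 < ‖A 0‖)
    (θ : ℝ) (hθ : θ < 1) (h5 : ∀ x, ‖A 0 x‖ ≤ ‖φ x‖ + θ * ‖x‖) :
    ¬ WeakMaximizingProperty 𝕂 E F := by
  classical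
  -- norms of the `A N`
  have hAN : ∀ N, ‖A N‖ ≤ ‖A 0‖ := fun N =>
    ContinuousLinearMap.opNorm_le_bound _ (norm_nonneg _)
      (fun x => (h2 N x).trans ((A 0).le_opNorm x))
  have hgeom : Summable (fun N : ℕ => ((1:ℝ)/2)^(N+1)) := by
    have := (summable_geometric_of_lt_one (by norm_num : (0:ℝ) ≤ 1/2) (by norm_num)).mul_right (1/2:ℝ)
    simpa [pow_succ] using this
  have hgsum : ∑' N : ℕ, ((1:ℝ)/2)^(N+1) = 1 := by
    have := tsum_geometric_of_lt_one (by norm_num : (0:ℝ) ≤ 1/2) (by norm_num : (1:ℝ)/2 < 1)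
    simp only [pow_succ]
    rw [tsum_mul_right, this]; norm_num
  have hcn : ∀ N : ℕ, ‖(((1:𝕂)/2)^(N+1))‖ = ((1:ℝ)/2)^(N+1) := by
    intro N; rw [norm_pow]; congr 1; simp
  have hVEk : ∀ k x, ‖VE^[k] x‖ = ‖x‖ := by
    intro k; induction k with
    | zero => intro x; rfl
    | succ k ih => intro x; rw [Function.iterate_succ_apply, ih, hVE]
  have hVFk : ∀ k x, ‖VF^[k] x‖ = ‖x‖ := by
    intro k; induction k with
    | zero => intro x; rfl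
    | succ k ih => intro x; rw [Function.iterate_succ_apply, ih, hVF]
  have hφk : ∀ k x, φ (VE^[k] x) = φ x := by
    intro k; induction k with
    | zero => intro x; rfl
    | succ k ih => intro x; rw [Function.iterate_succ_apply, ih, hφ]
  have hsumA : Summable (fun N : ℕ => (((1:𝕂)/2)^(N+1)) • A N) := by
    refine Summable.of_norm_bounded (g := fun N : ℕ => ((1:ℝ)/2)^(N+1) * ‖A 0‖)
      (hgeom.mul_right _) (fun N => ?_)
    rw [norm_smul, hcn]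
    exact mul_le_mul_of_nonneg_left (hAN N) (by positivity)
  set S : E →L[𝕂] F := ∑' N : ℕ, (((1:𝕂)/2)^(N+1)) • A N with hS
  have hSx : ∀ x, HasSum (fun N : ℕ => (((1:𝕂)/2)^(N+1)) • A N x) (S x) := by
    intro x
    have := (ContinuousLinearMap.apply 𝕂 F x).hasSum hsumA.hasSum
    rw [← hS] at this
    simpa only [ContinuousLinearMap.apply_apply, _root_.smul_apply] using this
  have hsumx : ∀ x, Summable (fun N : ℕ => ((1:ℝ)/2)^(N+1) * ‖A N x‖) := by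
    intro x
    refine Summable.of_nonneg_of_le (fun N => by positivity)
      (fun N => mul_le_mul_of_nonneg_left (h2 N x) (by positivity)) (hgeom.mul_right ‖A 0 x‖)
  have hSle1 : ∀ x, ‖S x‖ ≤ ∑' N : ℕ, ((1:ℝ)/2)^(N+1) * ‖A N x‖ := by
    intro x
    rw [← (hSx x).tsum_eq]
    have hs : Summable (fun N : ℕ => ‖(((1:𝕂)/2)^(N+1)) • A N x‖) := by
      simpa [norm_smul, hcn] using hsumx x
    refine (norm_tsum_le_tsum_norm hs).trans (le_of_eq ?_)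
    refine tsum_congr (fun N => ?_)
    rw [norm_smul, hcn]
  have hSle2 : ∀ x, ∑' N : ℕ, ((1:ℝ)/2)^(N+1) * ‖A N x‖ ≤ ‖A 0 x‖ := by
    intro x
    have : ∑' N : ℕ, ((1:ℝ)/2)^(N+1) * ‖A N x‖ ≤ ∑' N : ℕ, ((1:ℝ)/2)^(N+1) * ‖A 0 x‖ :=
      (hsumx x).tsum_le_tsum (fun N => mul_le_mul_of_nonneg_left (h2 N x) (by positivity))
        (hgeom.mul_right _)
    rwa [tsum_mul_right, hgsum, one_mul] at this
  have hSle : ∀ x, ‖S x‖ ≤ ‖A 0 x‖ := fun x => (hSle1 x).trans (hSle2 x)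
  have hSnorm_le : ‖S‖ ≤ ‖A 0‖ :=
    ContinuousLinearMap.opNorm_le_bound _ (norm_nonneg _)
      (fun x => (hSle x).trans ((A 0).le_opNorm x))
  -- lower bound along the shifts
  have hlow : ∀ k x, ‖A 0 x‖ - ((1:ℝ)/2)^(k+1) * (2 * ‖A 0‖ * ‖x‖) ≤ ‖S (VE^[k] x)‖ := by
    intro k x
    set z := VE^[k] x with hz
    set y := VF^[k] (A 0 x) with hy
    have hzn : ‖z‖ = ‖x‖ := hVEk k x
    have hyn : ‖y‖ = ‖A 0 x‖ := hVFk k _
    have hcsum : HasSum (fun N : ℕ => ((1:𝕂)/2)^(N+1)) 1 := by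
      have := (hasSum_geometric_of_norm_lt_one (ξ := (1:𝕂)/2) (by simp; norm_num)).mul_right (1/2:𝕂)
      have h2 : ((1:𝕂) - 1/2)⁻¹ * (1/2) = 1 := by
        rw [show (1:𝕂) - 1/2 = 1/2 by ring]
        have : (1:𝕂)/2 ≠ 0 := by simp
        exact inv_mul_cancel₀ this
      rw [h2] at this
      simpa [pow_succ] using this
    have hy1 : HasSum (fun N : ℕ => (((1:𝕂)/2)^(N+1)) • y) y := by
      simpa using hcsum.smul_const y
    have hd := (hSx z).sub hy1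
    have hterm : ∀ N : ℕ, ‖(((1:𝕂)/2)^(N+1)) • A N z - (((1:𝕂)/2)^(N+1)) • y‖ ≤
        if N < k + 1 then 0 else ((1:ℝ)/2)^(N+1) * (2 * ‖A 0‖ * ‖x‖) := by
      intro N
      split_ifs with hN
      · rw [hz, h1 N k (by omega) x, ← hy, sub_self, norm_zero]
      · rw [← smul_sub, norm_smul, hcn]
        refine mul_le_mul_of_nonneg_left ?_ (by positivity)
        calc ‖A N z - y‖ ≤ ‖A N z‖ + ‖y‖ := norm_sub_le _ _
          _ ≤ ‖A 0‖ * ‖x‖ + ‖A 0‖ * ‖x‖ := by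
              refine add_le_add ?_ ?_
              · calc ‖A N z‖ ≤ ‖A N‖ * ‖z‖ := (A N).le_opNorm z
                  _ ≤ ‖A 0‖ * ‖x‖ := by
                    rw [hzn]; exact mul_le_mul_of_nonneg_right (hAN N) (norm_nonneg _)
              · rw [hyn]; exact (A 0).le_opNorm x
          _ = 2 * ‖A 0‖ * ‖x‖ := by ring
    have hbs : HasSum (fun N : ℕ => if N < k + 1 then (0:ℝ) else
        ((1:ℝ)/2)^(N+1) * (2 * ‖A 0‖ * ‖x‖)) (((1:ℝ)/2)^(k+1) * (2 * ‖A 0‖ * ‖x‖)) := by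
      rw [← hasSum_nat_add_iff' (k+1)]
      have hz0 : ∑ i ∈ Finset.range (k + 1), (if i < k + 1 then (0:ℝ) else
        ((1:ℝ)/2)^(i+1) * (2 * ‖A 0‖ * ‖x‖)) = 0 := by
        refine Finset.sum_eq_zero (fun i hi => ?_)
        rw [if_pos (Finset.mem_range.mp hi)]
      rw [hz0, sub_zero]
      have h3 : HasSum (fun n : ℕ => ((1:ℝ)/2)^(n+1)) 1 := by
        have := hgeom.hasSum; rwa [hgsum] at this
      have h4 := h3.mul_right (((1:ℝ)/2)^(k+1) * (2 * ‖A 0‖ * ‖x‖))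
      rw [one_mul] at h4
      have h5 : (fun n : ℕ => (if n + (k + 1) < k + 1 then (0:ℝ) else
          ((1:ℝ)/2)^(n + (k+1) + 1) * (2 * ‖A 0‖ * ‖x‖))) =
          fun n : ℕ => ((1:ℝ)/2)^(n+1) * (((1:ℝ)/2)^(k+1) * (2 * ‖A 0‖ * ‖x‖)) := by
        funext n
        rw [if_neg (by omega)]
        ring
      rw [h5]
      exact h4
    have hnorm : ‖S z - y‖ ≤ ((1:ℝ)/2)^(k+1) * (2 * ‖A 0‖ * ‖x‖) := by
      rw [← hd.tsum_eq, ← hbs.tsum_eq]
      exact tsum_of_norm_bounded (hbs.summable.hasSum) hterm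
    have : ‖y‖ ≤ ‖S z‖ + ‖S z - y‖ := by
      have := norm_sub_le (S z) (S z - y)
      rwa [sub_sub_cancel] at this
    rw [hyn] at this
    linarith
  -- a maximizing sequence
  have hchoose : ∀ n : ℕ, ∃ x : E, ‖x‖ = 1 ∧ ‖A 0‖ - (‖A 0‖) * ((1:ℝ)/2)^n < ‖A 0 x‖ := by
    intro n
    have hp : (0:ℝ) < ((1:ℝ)/2)^n := by positivity
    have hp1 : ((1:ℝ)/2)^n ≤ 1 := pow_le_one₀ (by norm_num) (by norm_num)
    apply exists_unit_near
    · nlinarith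
    · nlinarith
  choose x hx1 hx2 using hchoose
  have hpow : Tendsto (fun n : ℕ => ((1:ℝ)/2)^n) atTop (𝓝 0) :=
    tendsto_pow_atTop_nhds_zero_of_lt_one (by norm_num) (by norm_num)
  have hlim1 : Tendsto (fun n => ‖A 0 (x n)‖) atTop (𝓝 ‖A 0‖) := by
    refine tendsto_of_tendsto_of_tendsto_of_le_of_le
      (g := fun n : ℕ => ‖A 0‖ - ‖A 0‖ * ((1:ℝ)/2)^n) (h := fun _ => ‖A 0‖) ?_ tendsto_const_nhds
      (fun n => (hx2 n).le) (fun n => ?_)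
    · simpa using (tendsto_const_nhds (x := ‖A 0‖)).sub (hpow.const_mul ‖A 0‖)
    · simpa [hx1] using (A 0).le_opNorm (x n)
  have hzlim : Tendsto (fun n => ‖S (VE^[n] (x n))‖) atTop (𝓝 ‖A 0‖) := by
    refine tendsto_of_tendsto_of_tendsto_of_le_of_le
      (g := fun n : ℕ => ‖A 0 (x n)‖ - ((1:ℝ)/2)^(n+1) * (2 * ‖A 0‖ * ‖x n‖))
      (h := fun _ => ‖A 0‖) ?_ tendsto_const_nhds
      (fun n => hlow n (x n)) (fun n => ?_)
    · have h3 : Tendsto (fun n : ℕ => ((1:ℝ)/2)^(n+1) * (2 * ‖A 0‖ * ‖x n‖)) atTop (𝓝 0) := by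
        have := (hpow.comp (tendsto_add_atTop_nat 1)).mul_const (2 * ‖A 0‖)
        simpa [hx1] using this
      simpa using hlim1.sub h3
    · calc ‖S (VE^[n] (x n))‖ ≤ ‖S‖ * ‖VE^[n] (x n)‖ := S.le_opNorm _
        _ = ‖S‖ := by rw [hVEk, hx1, mul_one]
        _ ≤ ‖A 0‖ := hSnorm_le
  have hSnorm : ‖S‖ = ‖A 0‖ := by
    refine le_antisymm hSnorm_le ?_
    refine le_of_tendsto hzlim (Eventually.of_forall (fun n => ?_))
    calc ‖S (VE^[n] (x n))‖ ≤ ‖S‖ * ‖VE^[n] (x n)‖ := S.le_opNorm _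
        _ = ‖S‖ := by rw [hVEk, hx1, mul_one]
  intro hW
  obtain ⟨w, hw1, hw2⟩ := hW S ⟨fun n => VE^[n] (x n), ⟨fun n => by rw [hVEk, hx1],
    by rw [hSnorm]; exact hzlim⟩, fun hnull => by
      have hn := hnull φ
      simp only [hφk] at hn
      have : ‖A 0‖ ≤ ‖(0:𝕂)‖ + θ * 1 := by
        refine le_of_tendsto_of_tendsto hlim1 (hn.norm.add (tendsto_const_nhds (x := θ * 1)))
          (Eventually.of_forall (fun n => ?_))
        simpa [hx1] using h5 (x n)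
      simp at this
      linarith⟩
  -- not attained
  have e1 : ‖A 0 w‖ ≤ ‖A 0‖ := by simpa [hw1] using (A 0).le_opNorm w
  have e2 : ‖A 0 w‖ = ‖A 0‖ := le_antisymm e1 (by rw [← hSnorm, ← hw2]; exact hSle w)
  have e3 : ∀ N, ‖A N w‖ = ‖A 0 w‖ := by
    by_contra hcon
    push Not at hcon
    obtain ⟨N, hN⟩ := hcon
    have hlt : ‖A N w‖ < ‖A 0 w‖ := lt_of_le_of_ne (h2 N w) hN
    have : ∑' N : ℕ, ((1:ℝ)/2)^(N+1) * ‖A N w‖ < ∑' N : ℕ, ((1:ℝ)/2)^(N+1) * ‖A 0 w‖ :=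
      Summable.tsum_lt_tsum (i := N) (fun M => mul_le_mul_of_nonneg_left (h2 M w) (by positivity))
        (mul_lt_mul_of_pos_left hlt (by positivity)) (hsumx w) (hgeom.mul_right _)
    rw [tsum_mul_right, hgsum, one_mul] at this
    have := (hSle1 w).trans_lt this
    rw [hw2, hSnorm, e2] at this
    exact lt_irrefl _ this
  have := h3 w e3
  rw [e2, hw1] at this
  linarith

end WMPProj
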