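import Pool.Agent.Lib_helper50.WMP.Final

open Filter Topology MeasureTheory Set
open scoped ENNReal

namespace WMPProj

/-- section of the quotient map `ℝ → ℝ/ℤ`, values in `(0,1]` -/
noncomputable def iot (y : AddCircle (1:ℝ)) : ℝ := (AddCircle.equivIoc (1:ℝ) 0 y : ℝ)

lemma iot_mem (y : AddCircle (1:ℝ)) : 0 < iot y ∧ iot y ≤ 1 := by
  have := (AddCircle.equivIoc (1:ℝ) 0 y).2
  unfold iot
  simpa using this

lemma iot_coe (t : ℝ) (h0 : 0 < t) (h1 : t ≤ 1) : iot (t : AddCircle (1:ℝ)) = t := by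
  unfold iot
  have : t ∈ Ioc (0:ℝ) (0+1) := ⟨h0, by simpa using h1⟩
  rw [AddCircle.equivIoc_coe_of_mem this]

lemma coe_iot (y : AddCircle (1:ℝ)) : ((iot y : ℝ) : AddCircle (1:ℝ)) = y :=
  AddCircle.coe_equivIoc

lemma iot_measurable : Measurable iot :=
  measurable_subtype_coe.comp (AddCircle.measurableEquivIoc (1:ℝ) 0).measurable

noncomputable def r0 (y : AddCircle (1:ℝ)) : ℝ := if iot y ≤ 1/2 then 1 else -1

lemma r0_meas : Measurable r0 :=
  Measurable.ite (measurableSet_le iot_measurable measurable_const) measurable_const measurable_const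

lemma r0_half (y : AddCircle (1:ℝ)) : r0 (y + ((1/2 : ℝ) : AddCircle (1:ℝ))) = - r0 y := by
  obtain ⟨h0, h1⟩ := iot_mem y
  have hy := coe_iot y
  set t := iot y with ht
  unfold r0
  rw [← ht]
  have hyt : y + ((1/2 : ℝ) : AddCircle (1:ℝ)) = ((t + 1/2 : ℝ) : AddCircle (1:ℝ)) := by
    rw [← hy]; norm_cast
  by_cases h : t ≤ 1/2
  · rw [hyt, iot_coe _ (by linarith) (by linarith), if_neg (by linarith), if_pos h]
  · push Not at h
    have h2 : ((t + 1/2 : ℝ) : AddCircle (1:ℝ)) = ((t - 1/2 : ℝ) : AddCircle (1:ℝ)) := by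
      have : (t + 1/2 : ℝ) = (t - 1/2) + 1 := by ring
      rw [this]
      exact AddCircle.coe_add_period (1:ℝ) (t - 1/2)
    rw [hyt, h2, iot_coe _ (by linarith) (by linarith), if_pos (by linarith), if_neg (by linarith)]
    norm_num

lemma mp_iot : MeasurePreserving iot volume (volume.restrict (Icc (0:ℝ) 1)) := by
  have h1 : MeasurePreserving (Subtype.val : Ioc (0:ℝ) (0+1) → ℝ)
      (Measure.comap Subtype.val volume) (volume.restrict (Ioc (0:ℝ) (0+1))) :=
    measurePreserving_subtype_coe measurableSet_Ioc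
  have h2 := h1.comp (AddCircle.measurePreserving_equivIoc (1:ℝ) (a := 0))
  have h3 : (volume.restrict (Ioc (0:ℝ) (0+1))) = (volume.restrict (Icc (0:ℝ) 1)) := by
    rw [zero_add]
    exact Measure.restrict_congr_set Ioc_ae_eq_Icc
  rw [h3] at h2
  exact h2

lemma mp_mk : MeasurePreserving (fun x : ℝ => (x : AddCircle (1:ℝ)))
    (volume.restrict (Icc (0:ℝ) 1)) volume := by
  have h := AddCircle.measurePreserving_mk (1:ℝ) 0
  have h3 : (volume.restrict (Ioc (0:ℝ) (0+1))) = (volume.restrict (Icc (0:ℝ) 1)) := by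
    rw [zero_add]
    exact Measure.restrict_congr_set Ioc_ae_eq_Icc
  rw [h3] at h
  exact h

lemma mp_dbl : MeasurePreserving (fun y : AddCircle (1:ℝ) => 2 • y) volume volume :=
  (AddCircle.ergodic_nsmul (T := (1:ℝ)) (n := 2) one_lt_two).toMeasurePreserving

instance : IsProbabilityMeasure (volume.restrict (Icc (0:ℝ) 1)) := ⟨by simp⟩

theorem sys_unitInterval : Sys (volume.restrict (Icc (0:ℝ) 1))
    (fun x => iot (2 • (x : AddCircle (1:ℝ)))) (fun x => r0 (x : AddCircle (1:ℝ))) where
  mp := mp_iot.comp (mp_dbl.comp mp_mk)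
  meas := r0_meas.comp mp_mk.measurable
  sq := by
    intro x
    unfold r0
    split_ifs
    · left; rfl
    · right; rfl
  ind := by
    intro g hg
    -- transfer to the circle
    have hgm : AEStronglyMeasurable (fun y : AddCircle (1:ℝ) => r0 y * g (iot (2 • y))) volume := by
      refine r0_meas.aestronglyMeasurable.mul ?_
      exact hg.aestronglyMeasurable.comp_measurePreserving (mp_iot.comp mp_dbl)
    have h1 : ∫ x in Icc (0:ℝ) 1, r0 (x : AddCircle (1:ℝ)) * g (iot (2 • (x : AddCircle (1:ℝ)))) =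
        ∫ y : AddCircle (1:ℝ), r0 y * g (iot (2 • y)) := by
      have h5 : AEStronglyMeasurable (fun y : AddCircle (1:ℝ) => r0 y * g (iot (2 • y)))
          (Measure.map (fun x : ℝ => (x : AddCircle (1:ℝ))) (volume.restrict (Icc (0:ℝ) 1))) := by
        rw [mp_mk.map_eq]; exact hgm
      have := integral_map mp_mk.measurable.aemeasurable h5
      rw [mp_mk.map_eq] at this
      exact this.symm
    rw [h1]
    have h2 := integral_add_right_eq_self (μ := (volume : Measure (AddCircle (1:ℝ))))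
      (fun y => r0 y * g (iot (2 • y))) ((1/2 : ℝ) : AddCircle (1:ℝ))
    have h3 : ∀ y : AddCircle (1:ℝ), 2 • (y + ((1/2 : ℝ) : AddCircle (1:ℝ))) = 2 • y := by
      intro y
      rw [smul_add]
      have : 2 • ((1/2 : ℝ) : AddCircle (1:ℝ)) = 0 := by
        rw [← AddCircle.coe_nsmul]
        simp
      rw [this, add_zero]
    simp only [h3, r0_half, neg_mul] at h2
    rw [integral_neg] at h2
    linarith

end WMPProj
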