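import Mathlib

/-!
# The weak maximizing property

Definitions for `MP_30e1ee_an`.
-/

open Filter Topology

namespace WMPProj

/-- A sequence `x` in a normed space `E` is weakly null if `φ (x n) → 0` for every bounded
linear functional `φ` on `E`. -/
def WeaklyNull (𝕂 : Type*) [RCLike 𝕂] {E : Type*} [NormedAddCommGroup E] [NormedSpace 𝕂 E]
    (x : ℕ → E) : Prop :=
  ∀ φ : E →L[𝕂] 𝕂, Tendsto (fun n => φ (x n)) atTop (𝓝 0)

/-- `x` is a maximizing sequence for `T`: unit vectors with `‖T (x n)‖ → ‖T‖`. -/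
def IsMaximizing {𝕂 : Type*} [RCLike 𝕂] {E F : Type*} [NormedAddCommGroup E] [NormedSpace 𝕂 E]
    [NormedAddCommGroup F] [NormedSpace 𝕂 F] (T : E →L[𝕂] F) (x : ℕ → E) : Prop :=
  (∀ n, ‖x n‖ = 1) ∧ Tendsto (fun n => ‖T (x n)‖) atTop (𝓝 ‖T‖)

/-- `T` attains its norm on the unit sphere. -/
def NormAttaining {𝕂 : Type*} [RCLike 𝕂] {E F : Type*} [NormedAddCommGroup E] [NormedSpace 𝕂 E]
    [NormedAddCommGroup F] [NormedSpace 𝕂 F] (T : E →L[𝕂] F) : Prop :=
  ∃ x₀ : E, ‖x₀‖ = 1 ∧ ‖T x₀‖ = ‖T‖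

/-- The pair `(E, F)` has the weak maximizing property: every bounded operator `T : E → F`
possessing a maximizing sequence that is not weakly null attains its norm. -/
def WeakMaximizingProperty (𝕂 : Type*) [RCLike 𝕂] (E F : Type*)
    [NormedAddCommGroup E] [NormedSpace 𝕂 E] [NormedAddCommGroup F] [NormedSpace 𝕂 F] : Prop :=
  ∀ T : E →L[𝕂] F, (∃ x : ℕ → E, IsMaximizing T x ∧ ¬ WeaklyNull 𝕂 x) → NormAttaining T

end WMPProj
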