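import Pool.Agent.Lib_helper50.WMP.Main

open Filter Topology MeasureTheory
open scoped ENNReal

namespace WMPProj

variable {Ω : Type*} [MeasurableSpace Ω]
variable {μ : Measure Ω} [IsProbabilityMeasure μ] {T : Ω → Ω} {r : Ω → ℝ}
  {𝕂 : Type*} [RCLike 𝕂]
variable {p p' q : ℝ≥0∞} [Fact (1 ≤ p)] [Fact (1 ≤ q)] {K K' l : ℝ}

lemma Sys.coef_V_iter (h : Sys μ T r) (p : ℝ≥0∞) [Fact (1 ≤ p)] (k : ℕ) (f : Lp 𝕂 p μ) :
    coef μ T r ((h.V 𝕂 p)^[k] f) = shift^[k] (coef μ T r f) := by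
  induction k with
  | zero => rfl
  | succ k ih => rw [Function.iterate_succ_apply', Function.iterate_succ_apply', h.coef_V, ih]

lemma Sys.mean_V_iter (h : Sys μ T r) (p : ℝ≥0∞) [Fact (1 ≤ p)] (k : ℕ) (f : Lp 𝕂 p μ) :
    ∫ x, ((h.V 𝕂 p)^[k] f) x ∂μ = ∫ x, f x ∂μ := by
  induction k with
  | zero => rfl
  | succ k ih => rw [Function.iterate_succ_apply', h.mean_V, ih]

lemma mul_shift_iter (c : 𝕂) (k : ℕ) (b : ℕ → 𝕂) :
    (fun i => c * (shift^[k] b) i) = shift^[k] (fun i => c * b i) := by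
  induction k with
  | zero => rfl
  | succ k ih =>
    rw [Function.iterate_succ_apply', Function.iterate_succ_apply', ← ih]
    funext i
    cases i with
    | zero => simp [shift]
    | succ i => rfl

lemma Sys.V_iter_one_J (h : Sys μ T r) (q : ℝ≥0∞) [Fact (1 ≤ q)] {K : ℝ} (hK0 : 0 ≤ K)
    (hK : Kh μ T r 𝕂 q K) (α : 𝕂) (k : ℕ) (b : ℕ → 𝕂) (hb : Summable (fun i => ‖b i‖^2)) :
    (h.V 𝕂 q)^[k] (α • one 𝕂 μ q + h.J 𝕂 q b) = α • one 𝕂 μ q + h.J 𝕂 q (shift^[k] b) ∧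
      Summable (fun i => ‖(shift^[k] b) i‖^2) := by
  induction k with
  | zero => exact ⟨rfl, hb⟩
  | succ k ih =>
    rw [Function.iterate_succ_apply', Function.iterate_succ_apply', ih.1]
    refine ⟨?_, shift_sq _ ih.2⟩
    rw [map_add, map_smul, h.V_one, h.V_J q hK0 hK _ ih.2]

lemma Data.val_V_iter (d : Data μ T r 𝕂 p p' q K K' l) (N k : ℕ) (hNk : N ≤ k) (f : Lp 𝕂 p μ) :
    d.val N ((d.h.V 𝕂 p)^[k] f) = (d.h.V 𝕂 q)^[k] (d.val 0 f) := by
  unfold Data.val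
  rw [trunc_zero, (d.h.V_iter_one_J q d.hK0 d.hK _ k _ (d.summ f)).1, d.h.mean_V_iter,
    d.h.coef_V_iter, mul_shift_iter, trunc_iter_shift N k hNk]

lemma Data.drop (d : Data μ T r 𝕂 p p' q K K' l) (h2 : 2 ≤ q) (hq : q ≠ ∞) (N : ℕ)
    (f : Lp 𝕂 p μ) :
    ‖d.val (N+1) f‖^q.toReal + ‖(l : 𝕂) * coef μ T r f N‖^q.toReal ≤ ‖d.val N f‖^q.toReal :=
  d.h.drop q h2 hq d.hK0 d.hK N _ _ (d.summ f)

lemma q_toReal {q : ℝ≥0∞} (h2 : 2 ≤ q) (hq : q ≠ ∞) : 2 ≤ q.toReal := by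
  have := ENNReal.toReal_mono hq h2
  simpa using this

lemma Data.drop_le (d : Data μ T r 𝕂 p p' q K K' l) (h2 : 2 ≤ q) (hq : q ≠ ∞) (N : ℕ)
    (f : Lp 𝕂 p μ) : ‖d.val (N+1) f‖ ≤ ‖d.val N f‖ := by
  have h1 := d.drop h2 hq N f
  have hQ := q_toReal h2 hq
  have h3 : ‖d.val (N+1) f‖^q.toReal ≤ ‖d.val N f‖^q.toReal := by
    have : 0 ≤ ‖(l : 𝕂) * coef μ T r f N‖^q.toReal := by positivity
    linarith
  exact (Real.rpow_le_rpow_iff (norm_nonneg _) (norm_nonneg _) (by linarith)).mp h3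

lemma Data.val_le (d : Data μ T r 𝕂 p p' q K K' l) (h2 : 2 ≤ q) (hq : q ≠ ∞) (N : ℕ)
    (f : Lp 𝕂 p μ) : ‖d.val N f‖ ≤ ‖d.val 0 f‖ := by
  induction N with
  | zero => exact le_rfl
  | succ N ih => exact (d.drop_le h2 hq N f).trans ih

lemma Data.val_const (d : Data μ T r 𝕂 p p' q K K' l) (h2 : 2 ≤ q) (hq : q ≠ ∞)
    (f : Lp 𝕂 p μ) (hf : ∀ N, ‖d.val N f‖ = ‖d.val 0 f‖) : ‖d.val 0 f‖ ≤ ‖f‖ := by
  have hQ := q_toReal h2 hq
  have h0 : ∀ N, (l : 𝕂) * coef μ T r f N = 0 := by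
    intro N
    have h1 := d.drop h2 hq N f
    rw [hf N, hf (N+1)] at h1
    have h3 : ‖(l : 𝕂) * coef μ T r f N‖^q.toReal ≤ 0 := by linarith
    have h4 : ‖(l : 𝕂) * coef μ T r f N‖^q.toReal = 0 := le_antisymm h3 (by positivity)
    rw [Real.rpow_eq_zero (norm_nonneg _) (by linarith)] at h4
    exact norm_eq_zero.mp h4
  have h5 : d.val 0 f = (∫ x, f x ∂μ) • one 𝕂 μ q := by
    unfold Data.val
    have : trunc 0 (fun i => (l : 𝕂) * coef μ T r f i) = fun _ => 0 := by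
      funext i; rw [trunc_zero]; exact h0 i
    rw [this]
    unfold Sys.J
    simp
  rw [h5, norm_smul]
  have e1 := norm_integral_le_norm p f
  have e2 := norm_one_Lp (μ := μ) (𝕂 := 𝕂) q
  calc ‖∫ x, f x ∂μ‖ * ‖one 𝕂 μ q‖ ≤ ‖f‖ * 1 :=
        mul_le_mul e1 e2 (norm_nonneg _) (norm_nonneg _)
    _ = ‖f‖ := mul_one _

lemma Sys.norm_test (h : Sys μ T r) (q : ℝ≥0∞) (hq0 : q ≠ 0) (hq : q ≠ ∞) (t : ℝ)
    (ht0 : 0 ≤ t) (ht : t < 1) :
    ‖one 𝕂 μ q + (t : 𝕂) • h.e 𝕂 q 0‖^q.toReal = tp q.toReal t := by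
  rw [norm_rpow_eq q hq0 hq]
  have e1 : ∫ x, ‖(one 𝕂 μ q + (t : 𝕂) • h.e 𝕂 q 0 : Lp 𝕂 q μ) x‖^q.toReal ∂μ =
      ∫ x, ‖(1 + (t : 𝕂) * (r x : 𝕂))‖^q.toReal ∂μ := by
    refine integral_congr_ae ?_
    filter_upwards [Lp.coeFn_add (one 𝕂 μ q) ((t : 𝕂) • h.e 𝕂 q 0), coeFn_one (𝕂 := 𝕂) (μ := μ) q,
      Lp.coeFn_smul (t : 𝕂) (h.e 𝕂 q 0), h.coeFn_e (𝕂 := 𝕂) q 0] with x h1 h2 h3 h4
    rw [h1, Pi.add_apply, h2, h3, Pi.smul_apply, h4]
    simp
  have hn : ∀ s : ℝ, 0 ≤ 1 + s → ‖(1 + (s : 𝕂))‖ = 1 + s := by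
    intro s hs
    have : (1 + (s : 𝕂)) = ((1 + s : ℝ) : 𝕂) := by push_cast; rfl
    rw [this, RCLike.norm_ofReal, abs_of_nonneg hs]
  have e2 := h.integral_split (fun _ => (1+t)^q.toReal) (fun _ => (1-t)^q.toReal)
    (integrable_const _) (integrable_const _)
    (fun x => ‖(1 + (t : 𝕂) * (r x : 𝕂))‖^q.toReal)
    (fun x hx => by simp [hx, hn t (by linarith)])
    (fun x hx => by
      have := hn (-t) (by linarith)
      simp only [hx]
      have e : (t:𝕂) * ((-1 : ℝ) : 𝕂) = ((-t : ℝ) : 𝕂) := by push_cast; ring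
      rw [e, this]; rfl)
  rw [e1, e2]
  simp [tp]

lemma Sys.coef_test (h : Sys μ T r) (p : ℝ≥0∞) [Fact (1 ≤ p)] (t : ℝ) (i : ℕ) :
    coef μ T r (one 𝕂 μ p + (t : 𝕂) • h.e 𝕂 p 0) i = if i = 0 then (t : 𝕂) else 0 := by
  have hri : ∀ i, ∫ x, (r (T^[i] x) : 𝕂) ∂μ = 0 := by
    intro i
    induction i with
    | zero =>
      have := h.indK (fun _ => (1:𝕂)) (integrable_const _)
      simpa using this
    | succ i ih =>
      have := h.integral_comp_T (fun x => (r (T^[i] x) : 𝕂)) (h.measurable_iter i).aestronglyMeasurable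
      simp only [Function.iterate_succ_apply]
      rw [this, ih]
  have e1 : coef μ T r (one 𝕂 μ p + (t : 𝕂) • h.e 𝕂 p 0) i =
      ∫ x, ((r (T^[i] x) : 𝕂) + (t : 𝕂) * ((r x : 𝕂) * (r (T^[i] x) : 𝕂))) ∂μ := by
    unfold coef
    refine integral_congr_ae ?_
    filter_upwards [Lp.coeFn_add (one 𝕂 μ p) ((t : 𝕂) • h.e 𝕂 p 0), coeFn_one (𝕂 := 𝕂) (μ := μ) p,
      Lp.coeFn_smul (t : 𝕂) (h.e 𝕂 p 0), h.coeFn_e (𝕂 := 𝕂) p 0] with x h1 h2 h3 h4
    rw [h1, Pi.add_apply, h2, h3, Pi.smul_apply, h4]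
    simp
    ring
  have hint1 : Integrable (fun x => (r (T^[i] x) : 𝕂)) μ :=
    (h.memLp_e 𝕂 1 i).integrable le_rfl
  have hint2 : Integrable (fun x => (r x : 𝕂) * (r (T^[i] x) : 𝕂)) μ := by
    refine hint1.bdd_mul (c := 1) (h.measurable_iter 0).aestronglyMeasurable ?_
    exact Eventually.of_forall (fun x => (h.norm_r x).le)
  rw [e1, integral_add hint1 (hint2.const_mul _), hri, zero_add, integral_const_mul]
  cases i with
  | zero =>
    have : ∀ x, (r x : 𝕂) * (r (T^[0] x) : 𝕂) = 1 := by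
      intro x
      rcases h.sq x with hx | hx <;> simp [hx]
    simp_rw [this]
    simp
  | succ i =>
    have := h.indK (fun x => (r (T^[i] x) : 𝕂)) ((h.memLp_e 𝕂 1 i).integrable le_rfl)
    simp only [Function.iterate_succ_apply]
    rw [this]; simp

lemma Sys.mean_test (h : Sys μ T r) (p : ℝ≥0∞) [Fact (1 ≤ p)] (t : ℝ) :
    ∫ x, (one 𝕂 μ p + (t : 𝕂) • h.e 𝕂 p 0 : Lp 𝕂 p μ) x ∂μ = 1 := by
  have h0 : ∫ x, (r x : 𝕂) ∂μ = 0 := by
    have := h.indK (fun _ => (1:𝕂)) (integrable_const _)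
    simpa using this
  have e1 : ∫ x, (one 𝕂 μ p + (t : 𝕂) • h.e 𝕂 p 0 : Lp 𝕂 p μ) x ∂μ =
      ∫ x, (1 + (t : 𝕂) * (r x : 𝕂)) ∂μ := by
    refine integral_congr_ae ?_
    filter_upwards [Lp.coeFn_add (one 𝕂 μ p) ((t : 𝕂) • h.e 𝕂 p 0), coeFn_one (𝕂 := 𝕂) (μ := μ) p,
      Lp.coeFn_smul (t : 𝕂) (h.e 𝕂 p 0), h.coeFn_e (𝕂 := 𝕂) p 0] with x h1 h2 h3 h4
    rw [h1, Pi.add_apply, h2, h3, Pi.smul_apply, h4]
    simp
  have hint1 : Integrable (fun x => (r x : 𝕂)) μ := (h.memLp_e 𝕂 1 0).integrable le_rfl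
  rw [e1, integral_add (integrable_const _) (hint1.const_mul _), integral_const_mul, h0]
  simp

/-- The main conclusion for an abstract system. -/
theorem Data.not_wmp (d : Data μ T r 𝕂 p p' q K K' l) (hp1 : 1 < p) (hp : p ≠ ∞)
    (h2 : 2 ≤ q) (hq : q ≠ ∞)
    (hθ : l * K * K' < 1) (hl : p.toReal - 1 < l^2 * (q.toReal - 1)) :
    ¬ WeakMaximizingProperty 𝕂 (Lp 𝕂 p μ) (Lp 𝕂 q μ) := by
  have hQ := q_toReal h2 hq
  have hp0 : p ≠ 0 := (zero_lt_one.trans hp1).ne'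
  have hq0 : q ≠ 0 := by rintro rfl; simp at h2
  have hP : 1 < p.toReal := by
    have := (ENNReal.toReal_lt_toReal ENNReal.one_ne_top hp).mpr hp1
    simpa using this
  refine not_wmp_of_scheme (fun N => d.A N) (d.h.V 𝕂 p) (d.h.V 𝕂 q)
    (fun x => LinearIsometry.norm_map _ _) (fun x => LinearIsometry.norm_map _ _)
    (mean μ 𝕂 p) (fun x => d.h.mean_V p x) (fun N k hNk x => d.val_V_iter N k hNk x)
    (fun N x => d.val_le h2 hq N x) (fun x hx => d.val_const h2 hq x hx) ?_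
    (l * K * K') hθ (fun x => d.norm_val_le 0 x)
  -- norm > 1
  obtain ⟨x, hx0, hx1, hlx, hlt⟩ := two_point hP (by linarith : 1 < q.toReal) d.hl hl
  by_contra hcon
  push Not at hcon
  set f : Lp 𝕂 p μ := one 𝕂 μ p + (x : 𝕂) • d.h.e 𝕂 p 0 with hf
  have h3 : ‖d.A 0 f‖ ≤ ‖f‖ := by
    calc ‖d.A 0 f‖ ≤ ‖d.A 0‖ * ‖f‖ := (d.A 0).le_opNorm f
      _ ≤ 1 * ‖f‖ := by gcongr
      _ = ‖f‖ := one_mul _
  have h4 : d.A 0 f = one 𝕂 μ q + ((l*x : ℝ) : 𝕂) • d.h.e 𝕂 q 0 := by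
    show d.val 0 f = _
    unfold Data.val
    rw [trunc_zero, hf, d.h.mean_test, one_smul]
    congr 1
    unfold Sys.J
    rw [tsum_eq_single 0]
    · simp only [d.h.coef_test, if_true]
      push_cast; rfl
    · intro i hi
      simp only [d.h.coef_test, if_neg hi]; simp
  have e1 : ‖f‖ = (tp p.toReal x)^(1/p.toReal) := by
    rw [← d.h.norm_test (𝕂 := 𝕂) p hp0 hp x hx0.le hx1, ← hf, ← Real.rpow_mul (norm_nonneg _),
      mul_one_div_cancel (by linarith), Real.rpow_one]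
  have e2 : ‖d.A 0 f‖ = (tp q.toReal (l*x))^(1/q.toReal) := by
    rw [h4, ← d.h.norm_test (𝕂 := 𝕂) q hq0 hq (l*x) (by have := d.hl; positivity) hlx,
      ← Real.rpow_mul (norm_nonneg _), mul_one_div_cancel (by linarith), Real.rpow_one]
  rw [e1, e2] at h3
  linarith

/-- Failure of the WMP on a probability space carrying a Bernoulli-type system. -/
theorem Sys.not_wmp (h : Sys μ T r) (𝕂 : Type*) [RCLike 𝕂] (p q : ℝ≥0∞) [Fact (1 ≤ p)] [Fact (1 ≤ q)]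
    (hp1 : 1 < p) (hp2 : p ≤ 2) (h2 : 2 ≤ q) (hq : q ≠ ∞) (hne : ¬ (p = 2 ∧ q = 2)) :
    ¬ WeakMaximizingProperty 𝕂 (Lp 𝕂 p μ) (Lp 𝕂 q μ) := by
  have hp : p ≠ ∞ := ne_top_of_le_ne_top (by simp) hp2
  have hQ := q_toReal h2 hq
  have hP : 1 < p.toReal := by
    have := (ENNReal.toReal_lt_toReal ENNReal.one_ne_top hp).mpr hp1
    simpa using this
  have hP2 : p.toReal ≤ 2 := by
    have := ENNReal.toReal_mono (by simp) hp2
    simpa using this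
  set P := p.toReal with hPdef
  set Q := q.toReal with hQdef
  set P' := P.conjExponent with hP'
  have hconj : P.HolderConjugate P' := Real.HolderConjugate.conjExponent hP
  have hP'2 : 2 ≤ P' := by
    rw [hP', Real.conjExponent, le_div_iff₀ (by linarith)]; linarith
  have hpP : ENNReal.ofReal P = p := ENNReal.ofReal_toReal hp
  have hqQ : ENNReal.ofReal Q = q := ENNReal.ofReal_toReal hq
  obtain ⟨K, hK0, hK1, hK2, hK⟩ := h.khintchine (𝕂 := 𝕂) Q hQ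
  obtain ⟨K', hK0', hK1', hK2', hK'⟩ := h.khintchine (𝕂 := 𝕂) P' hP'2
  rw [hqQ] at hK
  have hP1 : 0 < P - 1 := by linarith
  have hQ1 : 0 < Q - 1 := by linarith
  have hmul : P' - 1 = 1/(P - 1) := by
    rw [hP', Real.conjExponent]; field_simp; ring
  have hstrict : K^2 * K'^2 < (Q - 1) * (P' - 1) := by
    by_cases hq2 : 2 < Q
    · calc K^2 * K'^2 < (Q - 1) * K'^2 := mul_lt_mul_of_pos_right (hK2 hq2) (by positivity)
        _ ≤ (Q - 1) * (P' - 1) := mul_le_mul_of_nonneg_left hK1' hQ1.le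
    · have hQeq : Q = 2 := le_antisymm (not_lt.mp hq2) hQ
      have hq2' : q = 2 := by rw [← hqQ, hQeq]; simp
      have hPne : P ≠ 2 := by
        intro hP2'
        apply hne
        refine ⟨?_, hq2'⟩
        rw [← hpP, hP2']; simp
      have hPlt : P < 2 := lt_of_le_of_ne hP2 hPne
      have hP'gt : 2 < P' := by
        rw [hP', Real.conjExponent, lt_div_iff₀ hP1]; linarith
      calc K^2 * K'^2 < K^2 * (P' - 1) := mul_lt_mul_of_pos_left (hK2' hP'gt) (by positivity)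
        _ ≤ (Q - 1) * (P' - 1) := mul_le_mul_of_nonneg_right hK1 (by linarith)
  rw [hmul] at hstrict
  set u := (P - 1)/(Q - 1) with hu
  set v := 1/(K^2 * K'^2) with hv
  have huv : u < v := by
    rw [hu, hv, div_lt_div_iff₀ hQ1 (by positivity)]
    have := mul_lt_mul_of_pos_right hstrict hP1
    have e : (Q - 1) * (1/(P-1)) * (P-1) = Q - 1 := by field_simp
    rw [e] at this
    linarith
  have hu0 : 0 < u := by positivity
  set m := (u+v)/2 with hm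
  have hm1 : u < m := by rw [hm]; linarith
  have hm2 : m < v := by rw [hm]; linarith
  have hm0 : 0 < m := by linarith
  have hl0 : 0 < √m := Real.sqrt_pos.mpr hm0
  have hlsq : (√m)^2 = m := Real.sq_sqrt hm0.le
  have d : Data μ T r 𝕂 p (ENNReal.ofReal P') q K K' (√m) :=
    { h := h
      hpp := by
        have := hconj.ennrealOfReal
        rwa [hpP] at this
      hK0 := hK0.le
      hK0' := hK0'.le
      hK := hK
      hK' := hK'
      hl := hl0 }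
  refine d.not_wmp hp1 hp h2 hq ?_ ?_
  · have h1 : (√m * K * K')^2 < 1^2 := by
      have : (√m * K * K')^2 = m * (K^2 * K'^2) := by rw [mul_pow, mul_pow, hlsq]; ring
      rw [this, one_pow]
      calc m * (K^2 * K'^2) < v * (K^2 * K'^2) := mul_lt_mul_of_pos_right hm2 (by positivity)
        _ = 1 := by rw [hv]; field_simp
    exact lt_of_pow_lt_pow_left₀ 2 (by norm_num) h1
  · rw [hlsq, ← hPdef, ← hQdef]
    have := mul_lt_mul_of_pos_right hm1 hQ1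
    rwa [hu, div_mul_cancel₀ _ hQ1.ne'] at this

end WMPProj
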