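import Pool.Agent.Lib_helper50.WMP.System

open Filter Topology MeasureTheory

namespace WMPProj

variable {Ω : Type*} [MeasurableSpace Ω]
variable {μ : Measure Ω} [IsProbabilityMeasure μ] {T : Ω → Ω} {r : Ω → ℝ}
  {𝕂 : Type*} [RCLike 𝕂]

lemma Sys.lint_even (h : Sys μ T r) (n : ℕ) (a : ℕ → 𝕂) (m : ℕ) :
    ∫⁻ x, ‖rsum T r n a x‖ₑ^(2*m) ∂μ ≤
      ENNReal.ofReal (gm m * (∑ i ∈ Finset.range n, ‖a i‖^2)^m) := by
  have h1 : Integrable (fun x => ‖rsum T r n a x‖^(2*m)) μ := by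
    have := h.rsum_pow_integrable n a 0 (2*m)
    simpa only [add_zero] using this
  have h2 : ∫⁻ x, ‖rsum T r n a x‖ₑ^(2*m) ∂μ =
      ENNReal.ofReal (∫ x, ‖rsum T r n a x‖^(2*m) ∂μ) := by
    rw [ofReal_integral_eq_lintegral_ofReal h1 (Eventually.of_forall (fun x => by positivity))]
    refine lintegral_congr (fun x => ?_)
    rw [ENNReal.ofReal_pow (norm_nonneg _), ofReal_norm]
  rw [h2]
  exact ENNReal.ofReal_le_ofReal (h.moment n a m)

lemma eLpNorm_le_of_lint {X : Ω → 𝕂} {q : ℝ} (hq : 0 < q) {C : ℝ} (hC : 0 ≤ C)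
    (hX : ∫⁻ x, ‖X x‖ₑ^q ∂μ ≤ ENNReal.ofReal (C^q)) :
    eLpNorm X (ENNReal.ofReal q) μ ≤ ENNReal.ofReal C := by
  rw [eLpNorm_eq_lintegral_rpow_enorm_toReal (by simpa using hq) (by simp),
    ENNReal.toReal_ofReal hq.le]
  calc (∫⁻ x, ‖X x‖ₑ^q ∂μ)^(1/q) ≤ (ENNReal.ofReal (C^q))^(1/q) :=
        ENNReal.rpow_le_rpow hX (by positivity)
    _ = ENNReal.ofReal C := by
        rw [ENNReal.ofReal_rpow_of_nonneg (by positivity) (by positivity), ← Real.rpow_mul hC,
          mul_one_div_cancel hq.ne', Real.rpow_one]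

lemma Sys.khintchine_small (h : Sys μ T r) (q : ℝ) (hq : 2 ≤ q) (hq4 : q ≤ 4) (n : ℕ)
    (a : ℕ → 𝕂) :
    eLpNorm (rsum T r n a) (ENNReal.ofReal q) μ ≤
      ENNReal.ofReal ((3:ℝ)^((q-2)/(2*q)) * √(∑ i ∈ Finset.range n, ‖a i‖^2)) := by
  set s : ℝ := ∑ i ∈ Finset.range n, ‖a i‖^2 with hs
  have hs0 : 0 ≤ s := Finset.sum_nonneg (fun i _ => by positivity)
  have hq0 : 0 < q := by linarith
  apply eLpNorm_le_of_lint hq0 (by positivity)
  have hmeas := h.rsum_measurable n a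
  have h1 : ∫⁻ x, ‖rsum T r n a x‖ₑ^q ∂μ =
      ∫⁻ x, (‖rsum T r n a x‖ₑ^(2*1))^((4-q)/2) * (‖rsum T r n a x‖ₑ^(2*2))^((q-2)/2) ∂μ := by
    refine lintegral_congr (fun x => ?_)
    rw [← ENNReal.rpow_natCast, ← ENNReal.rpow_natCast, ← ENNReal.rpow_mul, ← ENNReal.rpow_mul,
      ← ENNReal.rpow_add_of_nonneg _ _ (by apply mul_nonneg; positivity; linarith)
        (by apply mul_nonneg; positivity; linarith)]
    congr 1; push_cast; ring
  rw [h1]
  refine (ENNReal.lintegral_mul_norm_pow_le (by fun_prop) (by fun_prop) (by linarith)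
    (by linarith) (by ring)).trans ?_
  have e1 := h.lint_even n a 1
  have e2 := h.lint_even n a 2
  rw [← hs] at e1 e2
  rw [gm_one, one_mul, pow_one] at e1
  rw [gm_two] at e2
  calc (∫⁻ x, ‖rsum T r n a x‖ₑ^(2*1) ∂μ)^((4-q)/2) * (∫⁻ x, ‖rsum T r n a x‖ₑ^(2*2) ∂μ)^((q-2)/2)
      ≤ (ENNReal.ofReal s)^((4-q)/2) * (ENNReal.ofReal (3*s^2))^((q-2)/2) := by
        gcongr <;> linarith
    _ = ENNReal.ofReal (s^((4-q)/2) * (3*s^2)^((q-2)/2)) := by
        rw [ENNReal.ofReal_rpow_of_nonneg hs0 (by linarith),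
          ENNReal.ofReal_rpow_of_nonneg (by positivity) (by linarith),
          ← ENNReal.ofReal_mul (by positivity)]
    _ = ENNReal.ofReal (((3:ℝ)^((q-2)/(2*q)) * √s)^q) := by
        congr 1
        rw [Real.mul_rpow (by norm_num) (by positivity), Real.mul_rpow (by positivity) (by positivity),
          ← Real.rpow_mul (by norm_num), Real.sqrt_eq_rpow, ← Real.rpow_mul hs0,
          ← Real.rpow_natCast, ← Real.rpow_mul hs0]
        have : (q-2)/(2*q)*q = (q-2)/2 := by field_simp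
        rw [this]
        have e3 : s^((4-q)/2) * s^(((2:ℕ):ℝ)*((q-2)/2)) = s^(1/2*q) := by
          rw [← Real.rpow_add_of_nonneg hs0 (by linarith) (by push_cast; linarith)]
          congr 1; push_cast; ring
        rw [← e3]; ring

lemma Sys.khintchine_even (h : Sys μ T r) (m : ℕ) (hm : 1 ≤ m) (n : ℕ)
    (a : ℕ → 𝕂) :
    eLpNorm (rsum T r n a) (ENNReal.ofReal (2*m)) μ ≤
      ENNReal.ofReal ((gm m)^(1/(2*m:ℝ)) * √(∑ i ∈ Finset.range n, ‖a i‖^2)) := by
  set s : ℝ := ∑ i ∈ Finset.range n, ‖a i‖^2 with hs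
  have hs0 : 0 ≤ s := Finset.sum_nonneg (fun i _ => by positivity)
  have hm0 : (0:ℝ) < m := by exact_mod_cast hm
  apply eLpNorm_le_of_lint (by positivity) (mul_nonneg (Real.rpow_nonneg (gm_nonneg m) _) (by positivity))
  have e := h.lint_even n a m
  rw [← hs] at e
  calc ∫⁻ x, ‖rsum T r n a x‖ₑ^(2*m:ℝ) ∂μ = ∫⁻ x, ‖rsum T r n a x‖ₑ^(2*m) ∂μ := by
        refine lintegral_congr (fun x => ?_)
        rw [← ENNReal.rpow_natCast]; push_cast; rfl
    _ ≤ _ := e
    _ = _ := by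
        congr 1
        rw [Real.mul_rpow (Real.rpow_nonneg (gm_nonneg m) _) (by positivity),
          ← Real.rpow_mul (gm_nonneg m), one_div_mul_cancel (by positivity), Real.rpow_one,
          Real.sqrt_eq_rpow, ← Real.rpow_mul hs0]
        congr 1
        rw [← Real.rpow_natCast]; congr 1; ring

/-- Khintchine with constants strictly below `√(q-1)` -/
lemma Sys.khintchine (h : Sys μ T r) (q : ℝ) (hq : 2 ≤ q) :
    ∃ K : ℝ, 0 < K ∧ K^2 ≤ q - 1 ∧ (2 < q → K^2 < q - 1) ∧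
      ∀ (n : ℕ) (a : ℕ → 𝕂), eLpNorm (rsum T r n a) (ENNReal.ofReal q) μ ≤
        ENNReal.ofReal (K * √(∑ i ∈ Finset.range n, ‖a i‖^2)) := by
  rcases le_or_gt q 4 with hq4 | hq4
  · refine ⟨(3:ℝ)^((q-2)/(2*q)), by positivity, ?_⟩
    have hq0 : 0 < q := by linarith
    have hK2 : ((3:ℝ)^((q-2)/(2*q)))^2 = 3^((q-2)/q) := by
      rw [← Real.rpow_natCast, ← Real.rpow_mul (by norm_num)]
      congr 1; push_cast; field_simp
    rw [hK2]
    have hstrict : 2 < q → (3:ℝ)^((q-2)/q) < q - 1 := by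
      intro h2
      rw [← Real.log_lt_log_iff (by positivity) (by linarith), Real.log_rpow (by norm_num)]
      have h3 : Real.log 3 < 2 := by
        have := Real.log_lt_sub_one_of_pos (by norm_num : (0:ℝ) < 3) (by norm_num)
        linarith
      have h4 := Real.le_log_one_add_of_nonneg (by linarith : 0 ≤ q - 2)
      rw [show 1 + (q-2) = q - 1 by ring, show q - 2 + 2 = q by ring] at h4
      have h5 : 0 < (q-2)/q := div_pos (by linarith) hq0
      calc (q-2)/q * Real.log 3 < (q-2)/q * 2 := mul_lt_mul_of_pos_left h3 h5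
        _ = 2*(q-2)/q := by ring
        _ ≤ _ := h4
    refine ⟨?_, hstrict, fun n a => h.khintchine_small q hq hq4 n a⟩
    rcases hq.eq_or_lt with h2 | h2
    · rw [← h2]; norm_num
    · exact (hstrict h2).le
  · -- pick m with 2m-2 < q ≤ 2m
    set m : ℕ := ⌈q/2⌉₊ with hm
    have hm1 : q/2 ≤ m := Nat.le_ceil _
    have hm2 : (m:ℝ) < q/2 + 1 := Nat.ceil_lt_add_one (by linarith)
    have hm3 : 3 ≤ m := by
      have : (2:ℝ) < m := by linarith
      exact_mod_cast this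
    have hm3' : (3:ℝ) ≤ m := by exact_mod_cast hm3
    have hgm := gm_lt m hm3
    have hgpos : 0 < gm m := by unfold gm; positivity
    have hK2 : ((gm m)^(1/(2*m:ℝ)))^2 = (gm m)^(1/(m:ℝ)) := by
      rw [← Real.rpow_natCast, ← Real.rpow_mul hgpos.le]
      congr 1; push_cast; field_simp
    have hKlt : ((gm m)^(1/(2*m:ℝ)))^2 < q - 1 := by
      rw [hK2]
      calc (gm m)^(1/(m:ℝ)) < ((2*(m:ℝ)-3)^m)^(1/(m:ℝ)) :=
            Real.rpow_lt_rpow hgpos.le hgm (by positivity)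
        _ = 2*(m:ℝ)-3 := by
            rw [← Real.rpow_natCast, ← Real.rpow_mul (by linarith), mul_one_div_cancel (by positivity),
              Real.rpow_one]
        _ < q - 1 := by linarith
    refine ⟨(gm m)^(1/(2*m:ℝ)), by positivity, hKlt.le, fun _ => hKlt, fun n a => ?_⟩
    refine le_trans ?_ (h.khintchine_even m (by omega) n a)
    apply eLpNorm_le_eLpNorm_of_exponent_le
    · exact ENNReal.ofReal_le_ofReal (by linarith)
    · exact (h.rsum_measurable n a).aestronglyMeasurable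

end WMPProj
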