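import Pool.Agent.Lib_helper50.WMP.Operator

open Filter Topology MeasureTheory
open scoped ENNReal

namespace WMPProj

variable {Ω : Type*} [MeasurableSpace Ω]
variable {μ : Measure Ω} [IsProbabilityMeasure μ] {T : Ω → Ω} {r : Ω → ℝ}
  {𝕂 : Type*} [RCLike 𝕂]

lemma pairing_le (p p' : ℝ≥0∞) [Fact (1 ≤ p)] (hpp : ENNReal.HolderTriple p p' 1)
    (f : Lp 𝕂 p μ) (X : Ω → 𝕂) (hX : AEStronglyMeasurable X μ) {C : ℝ} (hC : 0 ≤ C)
    (hXC : eLpNorm X p' μ ≤ ENNReal.ofReal C) :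
    ‖∫ x, f x * X x ∂μ‖ ≤ ‖f‖ * C := by
  have h1 : eLpNorm ((f : Ω → 𝕂) • X) 1 μ ≤ eLpNorm (f : Ω → 𝕂) p μ * eLpNorm X p' μ :=
    eLpNorm_smul_le_mul_eLpNorm hX (Lp.aestronglyMeasurable f)
  have h2 : ‖∫ x, f x * X x ∂μ‖ₑ ≤ ENNReal.ofReal (‖f‖ * C) := by
    calc ‖∫ x, f x * X x ∂μ‖ₑ ≤ ∫⁻ x, ‖f x * X x‖ₑ ∂μ := enorm_integral_le_lintegral_enorm _
      _ = eLpNorm ((f : Ω → 𝕂) • X) 1 μ := by rw [eLpNorm_one_eq_lintegral_enorm]; rfl
      _ ≤ _ := h1
      _ ≤ ENNReal.ofReal ‖f‖ * ENNReal.ofReal C := by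
          gcongr
          rw [Lp.norm_def, ENNReal.ofReal_toReal (Lp.eLpNorm_ne_top f)]
      _ = _ := by rw [ENNReal.ofReal_mul (norm_nonneg _)]
  rw [← ofReal_norm] at h2
  exact (ENNReal.ofReal_le_ofReal_iff (by positivity)).mp h2

lemma norm_integral_le_norm (p : ℝ≥0∞) [hp : Fact (1 ≤ p)] (f : Lp 𝕂 p μ) :
    ‖∫ x, f x ∂μ‖ ≤ ‖f‖ := by
  have h2 : ‖∫ x, f x ∂μ‖ₑ ≤ ENNReal.ofReal ‖f‖ := by
    calc ‖∫ x, f x ∂μ‖ₑ ≤ ∫⁻ x, ‖f x‖ₑ ∂μ := enorm_integral_le_lintegral_enorm _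
      _ = eLpNorm (f : Ω → 𝕂) 1 μ := by rw [eLpNorm_one_eq_lintegral_enorm]
      _ ≤ eLpNorm (f : Ω → 𝕂) p μ :=
          eLpNorm_le_eLpNorm_of_exponent_le hp.out (Lp.aestronglyMeasurable f)
      _ = ENNReal.ofReal ‖f‖ := by rw [Lp.norm_def, ENNReal.ofReal_toReal (Lp.eLpNorm_ne_top f)]
  rw [← ofReal_norm] at h2
  exact (ENNReal.ofReal_le_ofReal_iff (by positivity)).mp h2

lemma integrable_Lp (p : ℝ≥0∞) [hp : Fact (1 ≤ p)] (f : Lp 𝕂 p μ) : Integrable (f : Ω → 𝕂) μ :=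
  (Lp.memLp f).integrable hp.out

/-- Rademacher coefficients -/
noncomputable def coef (μ : Measure Ω) (T : Ω → Ω) (r : Ω → ℝ) {p : ℝ≥0∞} (f : Lp 𝕂 p μ) (i : ℕ) :
    𝕂 := ∫ x, f x * (r (T^[i] x) : 𝕂) ∂μ

lemma Sys.integrable_coef (h : Sys μ T r) (p : ℝ≥0∞) [hp : Fact (1 ≤ p)] (f : Lp 𝕂 p μ) (i : ℕ) :
    Integrable (fun x => f x * (r (T^[i] x) : 𝕂)) μ := by
  refine (integrable_Lp p f).mul_bdd (c := 1) (h.measurable_iter i).aestronglyMeasurable ?_
  exact Eventually.of_forall (fun x => by rw [h.norm_r])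

lemma Sys.coef_add (h : Sys μ T r) (p : ℝ≥0∞) [hp : Fact (1 ≤ p)] (f g : Lp 𝕂 p μ) (i : ℕ) :
    coef μ T r (f+g) i = coef μ T r f i + coef μ T r g i := by
  unfold coef
  rw [← integral_add (h.integrable_coef p f i) (h.integrable_coef p g i)]
  refine integral_congr_ae ?_
  filter_upwards [Lp.coeFn_add f g] with x hx
  rw [hx, Pi.add_apply]; ring

lemma coef_smul (p : ℝ≥0∞) [hp : Fact (1 ≤ p)] (c : 𝕂) (f : Lp 𝕂 p μ) (i : ℕ) :
    coef μ T r (c • f) i = c * coef μ T r f i := by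
  unfold coef
  rw [← integral_const_mul]
  refine integral_congr_ae ?_
  filter_upwards [Lp.coeFn_smul c f] with x hx
  rw [hx, Pi.smul_apply, smul_eq_mul]; ring

lemma Sys.integral_comp_T (h : Sys μ T r) (g : Ω → 𝕂) (hg : AEStronglyMeasurable g μ) :
    ∫ x, g (T x) ∂μ = ∫ x, g x ∂μ := by
  have h4 := h.mp.map_eq
  have h5 : AEStronglyMeasurable g (Measure.map T μ) := by rw [h4]; exact hg
  have := integral_map h.mp.measurable.aemeasurable h5
  rw [h4] at this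
  exact this.symm

lemma Sys.coef_V (h : Sys μ T r) (p : ℝ≥0∞) [hp : Fact (1 ≤ p)] (f : Lp 𝕂 p μ) :
    coef μ T r (h.V 𝕂 p f) = shift (coef μ T r f) := by
  funext i
  cases i with
  | zero =>
    unfold coef shift
    have := h.indK (fun x => f x) (integrable_Lp p f)
    rw [← this]
    refine integral_congr_ae ?_
    filter_upwards [h.coeFn_V p f] with x hx
    rw [hx]; simp [mul_comm]
  | succ i =>
    show coef μ T r (h.V 𝕂 p f) (i+1) = coef μ T r f i
    unfold coef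
    rw [← h.integral_comp_T (fun x => f x * (r (T^[i] x) : 𝕂))
      (h.integrable_coef p f i).aestronglyMeasurable]
    refine integral_congr_ae ?_
    filter_upwards [h.coeFn_V p f] with x hx
    rw [hx, Function.iterate_succ_apply]

lemma Sys.mean_V (h : Sys μ T r) (p : ℝ≥0∞) [hp : Fact (1 ≤ p)] (f : Lp 𝕂 p μ) :
    ∫ x, (h.V 𝕂 p f) x ∂μ = ∫ x, f x ∂μ := by
  rw [← h.integral_comp_T (fun x => f x) (Lp.aestronglyMeasurable f)]
  exact integral_congr_ae (h.coeFn_V p f)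

/-- Bessel-type inequality for the coefficients -/
lemma Sys.bessel (h : Sys μ T r) (p p' : ℝ≥0∞) [hp : Fact (1 ≤ p)]
    (hpp : ENNReal.HolderTriple p p' 1) {K : ℝ} (hK0 : 0 ≤ K) (hK : Kh μ T r 𝕂 p' K)
    (f : Lp 𝕂 p μ) (n : ℕ) :
    ∑ i ∈ Finset.range n, ‖coef μ T r f i‖^2 ≤ (K * ‖f‖)^2 := by
  set S := ∑ i ∈ Finset.range n, ‖coef μ T r f i‖^2 with hS
  have hS0 : 0 ≤ S := Finset.sum_nonneg (fun i _ => by positivity)
  set b : ℕ → 𝕂 := fun i => (starRingEnd 𝕂) (coef μ T r f i) with hb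
  have h1 : ∫ x, f x * rsum T r n b x ∂μ = (S : 𝕂) := by
    have e1 : ∀ x, f x * rsum T r n b x =
        ∑ i ∈ Finset.range n, b i * (f x * (r (T^[i] x) : 𝕂)) := by
      intro x
      unfold rsum
      rw [Finset.mul_sum]
      exact Finset.sum_congr rfl (fun i _ => by ring)
    simp_rw [e1]
    rw [integral_finsetSum _ (fun i _ => (h.integrable_coef p f i).const_mul _)]
    rw [hS]
    push_cast
    refine Finset.sum_congr rfl (fun i _ => ?_)
    rw [integral_const_mul]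
    show b i * coef μ T r f i = _
    rw [hb]
    simp only
    rw [RCLike.conj_mul]
  have hnb : ∀ i, ‖b i‖ = ‖coef μ T r f i‖ := fun i => RCLike.norm_conj _
  have h2 := pairing_le p p' hpp f (rsum T r n b) (h.rsum_measurable n b).aestronglyMeasurable
    (by positivity) (hK n b)
  rw [h1] at h2
  simp_rw [hnb] at h2
  rw [← hS, RCLike.norm_ofReal, abs_of_nonneg hS0] at h2
  have h3 : S = √S * √S := (Real.mul_self_sqrt hS0).symm
  rcases hS0.eq_or_lt with h0 | h0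
  · rw [← h0]; positivity
  · have h4 : 0 < √S := Real.sqrt_pos.mpr h0
    have h5 : √S ≤ K * ‖f‖ := by
      have : √S * √S ≤ (K * ‖f‖) * √S := by rw [← h3]; linarith
      exact le_of_mul_le_mul_right this h4
    calc S = √S ^ 2 := by rw [_root_.sq]; exact h3
      _ ≤ _ := by gcongr

lemma Sys.coef_summable (h : Sys μ T r) (p p' : ℝ≥0∞) [hp : Fact (1 ≤ p)]
    (hpp : ENNReal.HolderTriple p p' 1) {K : ℝ} (hK0 : 0 ≤ K) (hK : Kh μ T r 𝕂 p' K)
    (f : Lp 𝕂 p μ) : Summable (fun i => ‖coef μ T r f i‖^2) :=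
  summable_of_sum_range_le (fun i => by positivity) (h.bessel p p' hpp hK0 hK f)

lemma Sys.coef_tsum (h : Sys μ T r) (p p' : ℝ≥0∞) [hp : Fact (1 ≤ p)]
    (hpp : ENNReal.HolderTriple p p' 1) {K : ℝ} (hK0 : 0 ≤ K) (hK : Kh μ T r 𝕂 p' K)
    (f : Lp 𝕂 p μ) : ∑' i, ‖coef μ T r f i‖^2 ≤ (K * ‖f‖)^2 :=
  Real.tsum_le_of_sum_range_le (fun i => by positivity) (h.bessel p p' hpp hK0 hK f)

lemma Sys.J_add (h : Sys μ T r) (q : ℝ≥0∞) [Fact (1 ≤ q)] {K : ℝ} (hK0 : 0 ≤ K)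
    (hK : Kh μ T r 𝕂 q K) (b c : ℕ → 𝕂) (hb : Summable (fun i => ‖b i‖^2))
    (hc : Summable (fun i => ‖c i‖^2)) :
    h.J 𝕂 q (fun i => b i + c i) = h.J 𝕂 q b + h.J 𝕂 q c := by
  unfold Sys.J
  rw [← (h.summable_J q hK0 hK b hb).tsum_add (h.summable_J q hK0 hK c hc)]
  exact tsum_congr (fun i => add_smul _ _ _)

lemma Sys.J_smul (h : Sys μ T r) (q : ℝ≥0∞) [Fact (1 ≤ q)] {K : ℝ} (hK0 : 0 ≤ K)
    (hK : Kh μ T r 𝕂 q K) (c : 𝕂) (b : ℕ → 𝕂) (hb : Summable (fun i => ‖b i‖^2)) :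
    h.J 𝕂 q (fun i => c * b i) = c • h.J 𝕂 q b := by
  unfold Sys.J
  rw [← (h.summable_J q hK0 hK b hb).tsum_const_smul c]
  exact tsum_congr (fun i => mul_smul _ _ _)

/-- Package of the data used to build the operators. -/
structure Data (μ : Measure Ω) [IsProbabilityMeasure μ] (T : Ω → Ω) (r : Ω → ℝ)
    (𝕂 : Type*) [RCLike 𝕂] (p p' q : ℝ≥0∞) (K K' l : ℝ) : Prop where
  h : Sys μ T r
  hpp : ENNReal.HolderTriple p p' 1
  hK0 : 0 ≤ K
  hK0' : 0 ≤ K'
  hK : Kh μ T r 𝕂 q K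
  hK' : Kh μ T r 𝕂 p' K'
  hl : 0 < l

variable {p p' q : ℝ≥0∞} [Fact (1 ≤ p)] [Fact (1 ≤ q)] {K K' l : ℝ}

/-- the value of the operator `A_N` -/
noncomputable def Data.val (d : Data μ T r 𝕂 p p' q K K' l) (N : ℕ) (f : Lp 𝕂 p μ) : Lp 𝕂 q μ :=
  (∫ x, f x ∂μ) • one 𝕂 μ q + d.h.J 𝕂 q (trunc N (fun i => (l : 𝕂) * coef μ T r f i))

lemma Data.summ (d : Data μ T r 𝕂 p p' q K K' l) (f : Lp 𝕂 p μ) :
    Summable (fun i => ‖(l : 𝕂) * coef μ T r f i‖^2) := by
  have := (d.h.coef_summable p p' d.hpp d.hK0' d.hK' f).mul_left (‖(l:𝕂)‖^2)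
  simpa [mul_pow] using this

lemma Data.norm_val_le (d : Data μ T r 𝕂 p p' q K K' l) (N : ℕ) (f : Lp 𝕂 p μ) :
    ‖d.val N f‖ ≤ ‖∫ x, f x ∂μ‖ + (l * K * K') * ‖f‖ := by
  unfold Data.val
  refine (norm_add_le _ _).trans (add_le_add ?_ ?_)
  · rw [norm_smul]
    have := norm_one_Lp (μ := μ) (𝕂 := 𝕂) q
    nlinarith [norm_nonneg (∫ x, f x ∂μ)]
  · refine (d.h.norm_J_le q d.hK0 d.hK _ (trunc_sq N _ (d.summ f))).trans ?_
    have h1 : ∑' i, ‖trunc N (fun i => (l : 𝕂) * coef μ T r f i) i‖^2 ≤ (l * (K' * ‖f‖))^2 := by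
      calc ∑' i, ‖trunc N (fun i => (l : 𝕂) * coef μ T r f i) i‖^2
          ≤ ∑' i, ‖(l : 𝕂) * coef μ T r f i‖^2 := by
            refine (trunc_sq N _ (d.summ f)).tsum_le_tsum (fun i => ?_) (d.summ f)
            unfold trunc
            split_ifs
            · exact le_rfl
            · rw [norm_zero]; simp only [ne_eq, OfNat.ofNat_ne_zero, not_false_eq_true, zero_pow]
              positivity
        _ = ∑' i, l^2 * ‖coef μ T r f i‖^2 := by
            refine tsum_congr (fun i => ?_)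
            rw [norm_mul, RCLike.norm_ofReal, mul_pow, sq_abs]
        _ = l^2 * ∑' i, ‖coef μ T r f i‖^2 := tsum_mul_left
        _ ≤ l^2 * (K' * ‖f‖)^2 := by
            gcongr; exact d.h.coef_tsum p p' d.hpp d.hK0' d.hK' f
        _ = _ := by ring
    have h2 : √(∑' i, ‖trunc N (fun i => (l : 𝕂) * coef μ T r f i) i‖^2) ≤ l * (K' * ‖f‖) := by
      rw [Real.sqrt_le_left (by have := d.hl; have := d.hK0'; positivity)]
      exact h1
    calc K * √(∑' i, ‖trunc N (fun i => (l : 𝕂) * coef μ T r f i) i‖^2) ≤ K * (l * (K' * ‖f‖)) :=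
          mul_le_mul_of_nonneg_left h2 d.hK0
      _ = _ := by ring

/-- the operator `A_N` -/
noncomputable def Data.A (d : Data μ T r 𝕂 p p' q K K' l) (N : ℕ) : Lp 𝕂 p μ →L[𝕂] Lp 𝕂 q μ :=
  LinearMap.mkContinuous
    { toFun := d.val N
      map_add' := by
        intro f g
        unfold Data.val
        have e1 : ∫ x, (f+g : Lp 𝕂 p μ) x ∂μ = (∫ x, f x ∂μ) + ∫ x, g x ∂μ := by
          rw [← integral_add (integrable_Lp p f) (integrable_Lp p g)]
          exact integral_congr_ae (Lp.coeFn_add f g)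
        have e2 : trunc N (fun i => (l : 𝕂) * coef μ T r (f+g) i) =
            fun i => trunc N (fun i => (l : 𝕂) * coef μ T r f i) i +
              trunc N (fun i => (l : 𝕂) * coef μ T r g i) i := by
          funext i
          unfold trunc
          split_ifs
          · show (l:𝕂) * coef μ T r (f+g) i = (l:𝕂) * coef μ T r f i + (l:𝕂) * coef μ T r g i
            rw [d.h.coef_add]; ring
          · simp
        rw [e1, e2, d.h.J_add q d.hK0 d.hK _ _ (trunc_sq N _ (d.summ f)) (trunc_sq N _ (d.summ g)),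
          add_smul]
        abel
      map_smul' := by
        intro c f
        unfold Data.val
        have e1 : ∫ x, (c • f : Lp 𝕂 p μ) x ∂μ = c * (∫ x, f x ∂μ) := by
          rw [← integral_const_mul]
          exact integral_congr_ae (Lp.coeFn_smul c f)
        have e2 : trunc N (fun i => (l : 𝕂) * coef μ T r (c • f) i) =
            fun i => c * trunc N (fun i => (l : 𝕂) * coef μ T r f i) i := by
          funext i
          unfold trunc
          split_ifs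
          · show (l:𝕂) * coef μ T r (c • f) i = c * ((l:𝕂) * coef μ T r f i)
            rw [coef_smul]; ring
          · simp
        rw [e1, e2, d.h.J_smul q d.hK0 d.hK _ _ (trunc_sq N _ (d.summ f))]
        simp [mul_smul, smul_add] }
    (1 + l * K * K')
    (by
      intro f
      have := d.norm_val_le N f
      have h2 := norm_integral_le_norm p f
      simp only [LinearMap.coe_mk, AddHom.coe_mk]
      nlinarith)

lemma Data.A_apply (d : Data μ T r 𝕂 p p' q K K' l) (N : ℕ) (f : Lp 𝕂 p μ) :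
    d.A N f = d.val N f := rfl

/-- the mean as a functional -/
noncomputable def mean (μ : Measure Ω) [IsProbabilityMeasure μ] (𝕂 : Type*) [RCLike 𝕂]
    (p : ℝ≥0∞) [Fact (1 ≤ p)] : Lp 𝕂 p μ →L[𝕂] 𝕂 :=
  LinearMap.mkContinuous
    { toFun := fun f => ∫ x, f x ∂μ
      map_add' := by
        intro f g
        rw [← integral_add (integrable_Lp p f) (integrable_Lp p g)]
        exact integral_congr_ae (Lp.coeFn_add f g)
      map_smul' := by
        intro c f
        simp only [RingHom.id_apply, smul_eq_mul]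
        rw [← integral_const_mul]
        exact integral_congr_ae (Lp.coeFn_smul c f) } 1
    (by intro f; simpa using norm_integral_le_norm p f)

lemma trunc_iter_shift (N k : ℕ) (hNk : N ≤ k) (b : ℕ → 𝕂) :
    trunc N (shift^[k] b) = shift^[k] b := by
  have key : ∀ (k : ℕ) (b : ℕ → 𝕂) (i : ℕ), i < k → (shift^[k] b) i = 0 := by
    intro k
    induction k with
    | zero => intro b i hi; omega
    | succ k ih =>
      intro b i hi
      rw [Function.iterate_succ_apply']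
      cases i with
      | zero => rfl
      | succ i => exact ih b i (by omega)
  funext i
  unfold trunc
  split_ifs with hi
  · rfl
  · exact (key k b i (by omega)).symm

end WMPProj
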