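import Mathlib

open Filter Topology MeasureTheory

namespace WMPProj

/-- gaussian even moments `(2m-1)!! = (2m)!/(2^m m!)` -/
noncomputable def gm (m : ℕ) : ℝ := ((2*m).factorial : ℝ) / (2^m * (m.factorial : ℝ))

lemma gm_nonneg (m : ℕ) : 0 ≤ gm m := by unfold gm; positivity

lemma gm_succ (m : ℕ) : gm (m+1) = (2*m+1) * gm m := by
  unfold gm
  rw [show 2*(m+1) = 2*m+1+1 by ring, Nat.factorial_succ, Nat.factorial_succ, Nat.factorial_succ]
  push_cast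
  field_simp
  ring

lemma gm_zero : gm 0 = 1 := by simp [gm]
lemma gm_one : gm 1 = 1 := by rw [gm_succ, gm_zero]; norm_num
lemma gm_two : gm 2 = 3 := by rw [gm_succ, gm_one]; norm_num
lemma gm_three : gm 3 = 15 := by rw [gm_succ, gm_two]; norm_num

/-- `(2m-1)!! < (2m-3)^m` for `m ≥ 3` -/
lemma gm_lt (m : ℕ) (hm : 3 ≤ m) : gm m < (2*(m:ℝ)-3)^m := by
  induction m, hm using Nat.le_induction with
  | base => rw [gm_three]; norm_num
  | succ m hm ih =>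
    rw [gm_succ]
    have hm' : (3:ℝ) ≤ m := by exact_mod_cast hm
    have h3 : (0:ℝ) < 2*(m:ℝ)-3 := by linarith
    have hb : 1 + (m:ℝ) * (2/(2*(m:ℝ)-3)) ≤ (1 + 2/(2*(m:ℝ)-3))^m :=
      one_add_mul_le_pow (by have : 0 < 2/(2*(m:ℝ)-3) := by positivity
                             linarith) m
    have hb2 : (2:ℝ) ≤ 1 + (m:ℝ) * (2/(2*(m:ℝ)-3)) := by
      have : (1:ℝ) ≤ (m:ℝ) * (2/(2*(m:ℝ)-3)) := by
        rw [mul_div_assoc', le_div_iff₀ h3]; linarith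
      linarith
    have h4 : (2*((m:ℝ))-1) = (2*(m:ℝ)-3) * (1 + 2/(2*(m:ℝ)-3)) := by field_simp; ring
    have h5 : 2 * (2*(m:ℝ)-3)^m ≤ (2*(m:ℝ)-1)^m := by
      rw [h4, mul_pow]
      have := hb2.trans hb
      nlinarith [pow_pos h3 m]
    push_cast
    rw [show 2*((m:ℝ)+1)-3 = 2*(m:ℝ)-1 by ring, pow_succ]
    calc (2*(m:ℝ)+1) * gm m < (2*(m:ℝ)+1) * (2*(m:ℝ)-3)^m :=
          mul_lt_mul_of_pos_left ih (by positivity)
      _ ≤ (2*(2*(m:ℝ)-1)) * (2*(m:ℝ)-3)^m :=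
          mul_le_mul_of_nonneg_right (by linarith) (by positivity)
      _ = (2 * (2*(m:ℝ)-3)^m) * (2*(m:ℝ)-1) := by ring
      _ ≤ (2*(m:ℝ)-1)^m * (2*(m:ℝ)-1) := mul_le_mul_of_nonneg_right h5 (by linarith)

lemma choose_gm (m j : ℕ) (hj : j ≤ m) :
    ((2*m).choose (2*j) : ℝ) * gm j ≤ gm m * (m.choose j : ℝ) := by
  unfold gm
  rw [Nat.cast_choose ℝ (by omega : 2*j ≤ 2*m), Nat.cast_choose ℝ hj]
  have h1 : 2*m - 2*j = 2*(m-j) := by omega
  rw [h1]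
  have h2 : (2:ℝ)^(m-j) * ((m-j).factorial : ℝ) ≤ ((2*(m-j)).factorial : ℝ) := by
    exact_mod_cast Nat.two_pow_mul_factorial_le_factorial_two_mul (m-j)
  have h3 : (2:ℝ)^m = 2^(m-j) * 2^j := by rw [← pow_add]; congr 1; omega
  have e1 : ((2*m).factorial : ℝ) / ((2*j).factorial * (2*(m-j)).factorial) *
      ((2*j).factorial / (2^j * j.factorial)) =
      ((2*m).factorial : ℝ) / (2^j * j.factorial) * (1 / ((2*(m-j)).factorial)) := by
    field_simp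
  have e2 : ((2*m).factorial : ℝ) / (2^m * m.factorial) *
      (m.factorial / (j.factorial * (m-j).factorial)) =
      ((2*m).factorial : ℝ) / (2^j * j.factorial) * (1 / (2^(m-j) * (m-j).factorial)) := by
    rw [h3]; field_simp
  rw [e1, e2]
  apply mul_le_mul_of_nonneg_left _ (by positivity)
  exact one_div_le_one_div_of_le (by positivity) h2

lemma even_extract (f : ℕ → ℝ) (m : ℕ) :
    ∑ i ∈ Finset.range (2*m+1), (f i + (-1)^i * f i) = 2 * ∑ j ∈ Finset.range (m+1), f (2*j) := by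
  induction m with
  | zero => simp; ring
  | succ m ih =>
    rw [show 2*(m+1)+1 = (2*m+1)+1+1 by ring, Finset.sum_range_succ, Finset.sum_range_succ, ih,
      Finset.sum_range_succ (fun j => f (2*j)) (m+1)]
    have h1 : (-1:ℝ)^(2*m+1) = -1 := by
      rw [pow_succ, pow_mul]; norm_num
    have h2 : (-1:ℝ)^(2*m+1+1) = 1 := by
      rw [pow_succ, h1]; norm_num
    rw [h1, h2, show 2*(m+1) = 2*m+1+1 by ring]
    ring

lemma even_binom (x y : ℝ) (m : ℕ) :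
    (x+y)^(2*m) + (x-y)^(2*m) =
      2 * ∑ j ∈ Finset.range (m+1), ((2*m).choose (2*j) : ℝ) * x^(2*j) * y^(2*(m-j)) := by
  have h1 : (x+y)^(2*m) = ∑ i ∈ Finset.range (2*m+1), x^i * y^(2*m-i) * ((2*m).choose i : ℝ) :=
    add_pow x y (2*m)
  have h2 : (x-y)^(2*m) = ∑ i ∈ Finset.range (2*m+1),
      (-1)^i * (x^i * y^(2*m-i) * ((2*m).choose i : ℝ)) := by
    have : (x-y)^(2*m) = (-x+y)^(2*m) := by
      rw [pow_mul, pow_mul]; congr 1; ring
    rw [this, add_pow]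
    refine Finset.sum_congr rfl (fun i _ => ?_)
    rw [neg_pow]; ring
  rw [h1, h2, ← Finset.sum_add_distrib, even_extract]
  congr 1
  refine Finset.sum_congr rfl (fun j hj => ?_)
  have : j ≤ m := by have := Finset.mem_range.mp hj; omega
  rw [show 2*m - 2*j = 2*(m-j) by omega]
  ring

lemma sym_pow_mono (A B B0 : ℝ) (hB : |B| ≤ B0) (hB0 : B0 ≤ A) (m : ℕ) :
    (A+B)^m + (A-B)^m ≤ (A+B0)^m + (A-B0)^m := by
  wlog hBn : 0 ≤ B generalizing B with H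
  · have := H (-B) (by rwa [abs_neg]) (by linarith)
    calc (A+B)^m + (A-B)^m = (A+-B)^m + (A- -B)^m := by ring
      _ ≤ _ := this
  rw [abs_of_nonneg hBn] at hB
  have key : ∀ m : ℕ, ((A+B)^m + (A-B)^m ≤ (A+B0)^m + (A-B0)^m ∧ 0 ≤ (A+B)^m + (A-B)^m) ∧
      ((A+B)^m - (A-B)^m ≤ (A+B0)^m - (A-B0)^m ∧ 0 ≤ (A+B)^m - (A-B)^m) := by
    intro m
    induction m with
    | zero => simp
    | succ m ih =>
      obtain ⟨⟨h1, h2⟩, h3, h4⟩ := ih
      have hA : 0 ≤ A := by linarith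
      have e1 : (A+B)^(m+1) + (A-B)^(m+1) = A * ((A+B)^m + (A-B)^m) + B * ((A+B)^m - (A-B)^m) := by
        ring
      have e2 : (A+B)^(m+1) - (A-B)^(m+1) = A * ((A+B)^m - (A-B)^m) + B * ((A+B)^m + (A-B)^m) := by
        ring
      have e3 : (A+B0)^(m+1) + (A-B0)^(m+1) =
        A * ((A+B0)^m + (A-B0)^m) + B0 * ((A+B0)^m - (A-B0)^m) := by
        ring
      have e4 : (A+B0)^(m+1) - (A-B0)^(m+1) =
        A * ((A+B0)^m - (A-B0)^m) + B0 * ((A+B0)^m + (A-B0)^m) := by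
        ring
      rw [e1, e2, e3, e4]
      have hB0' : 0 ≤ B0 := hBn.trans hB
      refine ⟨⟨?_, by positivity⟩, ?_, by positivity⟩
      · exact add_le_add (mul_le_mul_of_nonneg_left h1 hA) (mul_le_mul hB h3 h4 hB0')
      · exact add_le_add (mul_le_mul_of_nonneg_left h3 hA) (mul_le_mul hB h1 h2 hB0')
  exact (key m).1.1

variable {𝕂 : Type*} [RCLike 𝕂]

lemma norm_pow_add_sub (z a : 𝕂) (m : ℕ) :
    ‖z + a‖^(2*m) + ‖z - a‖^(2*m) ≤
      2 * ∑ j ∈ Finset.range (m+1), ((2*m).choose (2*j) : ℝ) * ‖z‖^(2*j) * ‖a‖^(2*(m-j)) := by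
  rw [← even_binom]
  have h1 : ‖z+a‖^2 = (‖z‖^2+‖a‖^2) + 2 * RCLike.re (inner 𝕂 z a) := by
    rw [@norm_add_sq 𝕂]; ring
  have h2 : ‖z-a‖^2 = (‖z‖^2+‖a‖^2) - 2 * RCLike.re (inner 𝕂 z a) := by
    rw [@norm_sub_sq 𝕂]; ring
  have h3 : (‖z‖+‖a‖)^2 = (‖z‖^2+‖a‖^2) + 2 * (‖z‖*‖a‖) := by ring
  have h4 : (‖z‖-‖a‖)^2 = (‖z‖^2+‖a‖^2) - 2 * (‖z‖*‖a‖) := by ring
  rw [pow_mul, pow_mul, pow_mul, pow_mul, h1, h2, h3, h4]
  apply sym_pow_mono
  · rw [abs_mul, abs_two]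
    have := (RCLike.abs_re_le_norm (inner 𝕂 z a)).trans (norm_inner_le_norm z a)
    linarith
  · nlinarith [sq_nonneg (‖z‖-‖a‖)]

end WMPProj
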