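import Mathlib

open Filter Topology

namespace WMPProj

/-- `((1+x)^s+(1-x)^s)/2` -/
noncomputable def tp (s x : ℝ) : ℝ := ((1+x)^s + (1-x)^s)/2

lemma tp_deriv (s A x : ℝ) (hx : |x| < 1) :
    HasDerivAt (fun x => tp s x - A*x^2) (s/2*((1+x)^(s-1) - (1-x)^(s-1)) - 2*A*x) x := by
  obtain ⟨h1, h2⟩ := abs_lt.mp hx
  have e1 : HasDerivAt (fun x : ℝ => (1+x)^s) (1*s*(1+x)^(s-1)) x :=
    ((hasDerivAt_id x).const_add 1).rpow_const (Or.inl (by simp; linarith))
  have e2 : HasDerivAt (fun x : ℝ => (1-x)^s) ((-1)*s*(1-x)^(s-1)) x :=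
    ((hasDerivAt_id x).const_sub 1).rpow_const (Or.inl (by simp; linarith))
  have e3 : HasDerivAt (fun x : ℝ => A*x^2) (A*(2*x)) x := by
    simpa using (hasDerivAt_pow 2 x).const_mul A
  have := ((e1.add e2).div_const 2).sub e3
  refine this.congr_deriv ?_
  ring

lemma tp_deriv2 (s A : ℝ) :
    HasDerivAt (fun x : ℝ => s/2*((1+x)^(s-1) - (1-x)^(s-1)) - 2*A*x) (s*(s-1) - 2*A) 0 := by
  have e1 : HasDerivAt (fun x : ℝ => (1+x)^(s-1)) (1*(s-1)*(1+0)^(s-1-1)) 0 :=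
    ((hasDerivAt_id (0:ℝ)).const_add 1).rpow_const (Or.inl (by simp))
  have e2 : HasDerivAt (fun x : ℝ => (1-x)^(s-1)) ((-1)*(s-1)*(1-0)^(s-1-1)) 0 :=
    ((hasDerivAt_id (0:ℝ)).const_sub 1).rpow_const (Or.inl (by simp))
  have e3 : HasDerivAt (fun x : ℝ => 2*A*x) (2*A) 0 := by
    simpa using (hasDerivAt_id (0:ℝ)).const_mul (2*A)
  have := ((e1.sub e2).const_mul (s/2)).sub e3
  refine this.congr_deriv ?_
  simp
  ring

lemma tp_zero (s : ℝ) : tp s 0 = 1 := by simp [tp]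

lemma ball_nhds : ∀ᶠ x : ℝ in 𝓝 0, |x| < 1 := by
  have := Metric.ball_mem_nhds (0:ℝ) one_pos
  filter_upwards [this] with x hx
  simpa using hx

lemma tp_dd (s A : ℝ) : deriv (deriv (fun x => tp s x - A*x^2)) 0 = s*(s-1) - 2*A := by
  have h : deriv (fun x => tp s x - A*x^2) =ᶠ[𝓝 0]
      (fun x : ℝ => s/2*((1+x)^(s-1) - (1-x)^(s-1)) - 2*A*x) := by
    filter_upwards [ball_nhds] with x hx
    exact (tp_deriv s A x hx).deriv
  rw [h.deriv_eq]
  exact (tp_deriv2 s A).deriv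

lemma tp_lower (s A : ℝ) (hA : 2*A < s*(s-1)) : ∀ᶠ x : ℝ in 𝓝 0, 1 + A*x^2 ≤ tp s x := by
  have h : IsLocalMin (fun x => tp s x - A*x^2) 0 := by
    apply isLocalMin_of_deriv_deriv_pos
    · rw [tp_dd]; linarith
    · rw [(tp_deriv s A 0 (by simp)).deriv]; simp
    · exact (tp_deriv s A 0 (by simp)).continuousAt
  filter_upwards [h] with x hx
  simp only [tp_zero] at hx
  norm_num at hx
  linarith

lemma tp_upper (s A : ℝ) (hA : s*(s-1) < 2*A) : ∀ᶠ x : ℝ in 𝓝 0, tp s x ≤ 1 + A*x^2 := by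
  have h : IsLocalMax (fun x => tp s x - A*x^2) 0 := by
    apply isLocalMax_of_deriv_deriv_neg
    · rw [tp_dd]; linarith
    · rw [(tp_deriv s A 0 (by simp)).deriv]; simp
    · exact (tp_deriv s A 0 (by simp)).continuousAt
  filter_upwards [h] with x hx
  simp only [tp_zero] at hx
  norm_num at hx
  linarith

/-- failure of two-point hypercontractivity -/
lemma two_point {p q l : ℝ} (hp : 1 < p) (hq : 1 < q) (hl : 0 < l) (h : p - 1 < l^2*(q-1)) :
    ∃ x : ℝ, 0 < x ∧ x < 1 ∧ l * x < 1 ∧ (tp p x)^(1/p) < (tp q (l*x))^(1/q) := by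
  -- choose B/p < l^2 A / q
  set d := (l^2*(q-1) - (p-1))/4 with hd
  have hdpos : 0 < d := by rw [hd]; linarith
  set B := p*((p-1) + d)/2 with hB
  set A := q*((q-1) - d/l^2)/2 with hA
  have h1 : p*(p-1) < 2*B := by rw [hB]; nlinarith
  have hl2 : 0 < l^2 := by positivity
  have h2 : 2*A < q*(q-1) := by
    rw [hA]
    have : 0 < d/l^2 := by positivity
    nlinarith
  -- A>0
  have h3 : B/p < l^2*A/q := by
    have e1 : B/p = ((p-1)+d)/2 := by rw [hB]; field_simp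
    have e2 : l^2*A/q = (l^2*(q-1) - d)/2 := by rw [hA]; field_simp
    rw [e1, e2]; linarith
  have hBpos : 0 < B := by rw [hB]; have : 0 < p - 1 := by linarith
                           positivity
  have hApos : 0 < A := by
    have : 0 < B/p := div_pos hBpos (by linarith)
    have h4 : 0 < l^2*A/q := by linarith
    have hq0 : 0 < q := by linarith
    have h5 : 0 < l^2*A := by
      have := mul_pos h4 hq0
      rwa [div_mul_cancel₀ _ hq0.ne'] at this
    exact (mul_pos_iff_of_pos_left hl2).mp h5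
  have hev1 : ∀ᶠ x : ℝ in 𝓝 0, tp p x ≤ 1 + B*x^2 := tp_upper p B h1
  have htend : Tendsto (fun x : ℝ => l*x) (𝓝 0) (𝓝 0) := by
    have := (continuous_const_mul l).tendsto (0:ℝ)
    simpa using this
  have hev2 : ∀ᶠ x : ℝ in 𝓝 0, 1 + A*(l*x)^2 ≤ tp q (l*x) := htend.eventually (tp_lower q A h2)
  have hev3 : ∀ᶠ x : ℝ in 𝓝 0, |l*x| < 1 := htend.eventually ball_nhds
  have hev4 : ∀ᶠ x : ℝ in 𝓝 0, B/p < l^2*A/q * (2/(A*(l*x)^2+2)) := by
    have hc : ContinuousAt (fun x : ℝ => l^2*A/q * (2/(A*(l*x)^2+2))) 0 := by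
      apply ContinuousAt.mul continuousAt_const
      apply ContinuousAt.div continuousAt_const
      · fun_prop
      · norm_num
    have : Tendsto (fun x : ℝ => l^2*A/q * (2/(A*(l*x)^2+2))) (𝓝 0) (𝓝 (l^2*A/q)) := by
      have := hc.tendsto
      simpa using this
    exact this.eventually (lt_mem_nhds h3)
  have hall : ∀ᶠ x : ℝ in 𝓝[>] 0, 0 < x ∧ (|x| < 1 ∧ tp p x ≤ 1 + B*x^2 ∧
      1 + A*(l*x)^2 ≤ tp q (l*x) ∧ |l*x| < 1 ∧ B/p < l^2*A/q * (2/(A*(l*x)^2+2))) := by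
    refine eventually_mem_nhdsWithin.and (nhdsWithin_le_nhds ?_)
    exact ball_nhds.and (hev1.and (hev2.and (hev3.and hev4)))
  obtain ⟨x, hx0, hx1, hx2, hx3, hx4, hx5⟩ := hall.exists
  refine ⟨x, hx0, (abs_lt.mp hx1).2, (abs_lt.mp hx4).2, ?_⟩
  set y := A*(l*x)^2 with hy
  have hy0 : 0 < y := by rw [hy]; positivity
  have htp0 : 0 ≤ tp p x := by
    unfold tp
    have := (abs_lt.mp hx1)
    have e1 : 0 ≤ 1 + x := by linarith
    have e2 : 0 ≤ 1 - x := by linarith [this.2]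
    positivity
  have hp0 : 0 < p := by linarith
  have hq0 : 0 < q := by linarith
  calc (tp p x)^(1/p) ≤ (1+B*x^2)^(1/p) := Real.rpow_le_rpow htp0 hx2 (by positivity)
    _ ≤ (Real.exp (B*x^2))^(1/p) := by
        apply Real.rpow_le_rpow (by positivity) _ (by positivity)
        linarith [Real.add_one_le_exp (B*x^2)]
    _ = Real.exp (B/p*x^2) := by rw [← Real.exp_mul]; congr 1; field_simp
    _ < Real.exp (Real.log (1+y) / q) := by
        rw [Real.exp_lt_exp]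
        have h6 := Real.le_log_one_add_of_nonneg hy0.le
        calc B/p*x^2 < (l^2*A/q * (2/(y+2)))*x^2 := mul_lt_mul_of_pos_right hx5 (by positivity)
          _ = (2*y/(y+2))/q := by rw [hy]; field_simp
          _ ≤ Real.log (1+y)/q := by gcongr
    _ = (1+y)^(1/q) := by
        rw [Real.rpow_def_of_pos (by positivity)]; congr 1; ring
    _ ≤ _ := Real.rpow_le_rpow (by positivity) hx3 (by positivity)

end WMPProj
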