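import Pool.Agent.Lib_helper50.WMP.Khintchine
import Pool.Agent.Lib_helper50.WMP.TwoPoint
import Pool.Agent.Lib_helper50.WMP.Abstract

open Filter Topology MeasureTheory
open scoped ENNReal

namespace WMPProj

variable {Ω : Type*} [MeasurableSpace Ω]
variable {μ : Measure Ω} [IsProbabilityMeasure μ] {T : Ω → Ω} {r : Ω → ℝ}
  {𝕂 : Type*} [RCLike 𝕂]

/-! ### pointwise Clarkson-type inequality -/

lemma clarkson_pt (z a : 𝕂) (Q : ℝ) (hQ : 2 ≤ Q) :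
    ‖z‖^Q + ‖a‖^Q ≤ (‖z + a‖^Q + ‖z - a‖^Q)/2 := by
  have hS : 1 ≤ Q/2 := by linarith
  have hpow : ∀ x : ℝ, 0 ≤ x → x^Q = (x^2)^(Q/2) := by
    intro x hx
    rw [← Real.rpow_natCast, ← Real.rpow_mul hx]; congr 1; push_cast; ring
  rw [hpow _ (norm_nonneg z), hpow _ (norm_nonneg a), hpow _ (norm_nonneg (z+a)),
    hpow _ (norm_nonneg (z-a))]
  have hpar : ‖z+a‖^2 + ‖z-a‖^2 = 2*(‖z‖^2+‖a‖^2) := by
    have := parallelogram_law_with_norm 𝕂 z a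
    nlinarith
  have h1 : (‖z‖^2)^(Q/2) + (‖a‖^2)^(Q/2) ≤ (‖z‖^2+‖a‖^2)^(Q/2) :=
    Real.add_rpow_le_rpow_add (by positivity) (by positivity) hS
  have h2 := (convexOn_rpow hS).2 (Set.mem_Ici.mpr (sq_nonneg ‖z+a‖))
    (Set.mem_Ici.mpr (sq_nonneg ‖z-a‖)) (show (0:ℝ) ≤ 1/2 by norm_num)
    (show (0:ℝ) ≤ 1/2 by norm_num) (by norm_num)
  simp only [smul_eq_mul] at h2
  have h3 : 1/2*‖z+a‖^2 + 1/2*‖z-a‖^2 = ‖z‖^2+‖a‖^2 := by linarith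
  rw [h3] at h2
  linarith

/-! ### the shift, the Rademacher vectors -/

section defs
variable (𝕂)

/-- composition with `T` on `L_p` -/
noncomputable def Sys.V (h : Sys μ T r) (p : ℝ≥0∞) [Fact (1 ≤ p)] : Lp 𝕂 p μ →ₗᵢ[𝕂] Lp 𝕂 p μ :=
  Lp.compMeasurePreservingₗᵢ 𝕂 T h.mp

lemma Sys.memLp_e (h : Sys μ T r) (p : ℝ≥0∞) (i : ℕ) :
    MemLp (fun x => (r (T^[i] x) : 𝕂)) p μ := by
  refine MemLp.of_bound (h.measurable_iter i).aestronglyMeasurable 1 ?_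
  exact Eventually.of_forall (fun x => by rw [h.norm_r])

/-- Rademacher function as an element of `L_p` -/
noncomputable def Sys.e (h : Sys μ T r) (p : ℝ≥0∞) (i : ℕ) : Lp 𝕂 p μ :=
  (h.memLp_e 𝕂 p i).toLp _

/-- constant function `1` -/
noncomputable def one (μ : Measure Ω) [IsProbabilityMeasure μ] (p : ℝ≥0∞) : Lp 𝕂 p μ :=
  Lp.const p μ (1:𝕂)

end defs

lemma Sys.coeFn_e (h : Sys μ T r) (p : ℝ≥0∞) (i : ℕ) :
    (h.e 𝕂 p i : Ω → 𝕂) =ᵐ[μ] fun x => (r (T^[i] x) : 𝕂) := MemLp.coeFn_toLp _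

lemma coeFn_one (p : ℝ≥0∞) : (one 𝕂 μ p : Ω → 𝕂) =ᵐ[μ] fun _ => 1 := Lp.coeFn_const _ _ _

lemma Sys.coeFn_V (h : Sys μ T r) (p : ℝ≥0∞) [Fact (1 ≤ p)] (f : Lp 𝕂 p μ) :
    (h.V 𝕂 p f : Ω → 𝕂) =ᵐ[μ] fun x => f (T x) := Lp.coeFn_compMeasurePreserving f h.mp

lemma Sys.V_e (h : Sys μ T r) (p : ℝ≥0∞) [Fact (1 ≤ p)] (i : ℕ) :
    h.V 𝕂 p (h.e 𝕂 p i) = h.e 𝕂 p (i+1) := by
  apply Lp.ext
  refine (h.coeFn_V p _).trans ?_
  have h1 := h.mp.quasiMeasurePreserving.ae_eq_comp (h.coeFn_e (𝕂 := 𝕂) p i)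
  refine EventuallyEq.trans ?_ (h.coeFn_e p (i+1)).symm
  filter_upwards [h1] with x hx
  simp only [Function.comp_apply] at hx
  rw [hx, Function.iterate_succ_apply]

lemma Sys.V_one (h : Sys μ T r) (p : ℝ≥0∞) [Fact (1 ≤ p)] :
    h.V 𝕂 p (one 𝕂 μ p) = one 𝕂 μ p := by
  apply Lp.ext
  refine (h.coeFn_V p _).trans ?_
  have h1 := h.mp.quasiMeasurePreserving.ae_eq_comp (coeFn_one (μ := μ) (𝕂 := 𝕂) p)
  refine EventuallyEq.trans ?_ (coeFn_one p).symm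
  filter_upwards [h1] with x hx
  simpa using hx

lemma norm_one_Lp (p : ℝ≥0∞) [hp : Fact (1 ≤ p)] : ‖one 𝕂 μ p‖ ≤ 1 := by
  unfold one
  rw [← MemLp.toLp_const, Lp.norm_toLp]
  have h0 : p ≠ 0 := (zero_lt_one.trans_le hp.out).ne'
  rw [eLpNorm_const _ h0 (NeZero.ne μ)]
  simp

/-! ### norms in `L_q` -/

lemma norm_rpow_eq (q : ℝ≥0∞) (hq0 : q ≠ 0) (hq : q ≠ ∞) (F : Lp 𝕂 q μ) :
    ‖F‖^q.toReal = ∫ x, ‖F x‖^q.toReal ∂μ := by
  have hpos : 0 < q.toReal := ENNReal.toReal_pos hq0 hq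
  rw [Lp.norm_def, (Lp.memLp F).eLpNorm_eq_integral_rpow_norm hq0 hq]
  have hint : 0 ≤ ∫ x, ‖F x‖^q.toReal ∂μ := integral_nonneg (fun x => by positivity)
  rw [ENNReal.toReal_ofReal (by positivity), ← Real.rpow_mul hint, inv_mul_cancel₀ hpos.ne',
    Real.rpow_one]

lemma integrable_rpow (q : ℝ≥0∞) (hq0 : q ≠ 0) (hq : q ≠ ∞) {f : Ω → 𝕂} (hf : MemLp f q μ) :
    Integrable (fun x => ‖f x‖^q.toReal) μ := hf.integrable_norm_rpow hq0 hq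

/-- The basic drop inequality. -/
lemma Sys.drop0 (h : Sys μ T r) (q : ℝ≥0∞) [Fact (1 ≤ q)] (h2 : 2 ≤ q) (hq : q ≠ ∞)
    (F : Lp 𝕂 q μ) (a : 𝕂) :
    ‖F‖^q.toReal + ‖a‖^q.toReal ≤ ‖h.V 𝕂 q F + a • h.e 𝕂 q 0‖^q.toReal := by
  have hq0 : q ≠ 0 := by rintro rfl; simp at h2
  have hQ : 2 ≤ q.toReal := by
    have := ENNReal.toReal_mono hq h2
    simpa using this
  have hQ0 : 0 < q.toReal := by linarith
  rw [norm_rpow_eq q hq0 hq F, norm_rpow_eq q hq0 hq]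
  have hF : MemLp (F : Ω → 𝕂) q μ := Lp.memLp F
  have hFa : MemLp (fun x => F x + a) q μ := hF.add (memLp_const a)
  have hFb : MemLp (fun x => F x - a) q μ := hF.sub (memLp_const a)
  have e1 : ∫ x, ‖(h.V 𝕂 q F + a • h.e 𝕂 q 0 : Lp 𝕂 q μ) x‖^q.toReal ∂μ =
      ∫ x, ‖F (T x) + a * (r x : 𝕂)‖^q.toReal ∂μ := by
    refine integral_congr_ae ?_
    filter_upwards [Lp.coeFn_add (h.V 𝕂 q F) (a • h.e 𝕂 q 0), h.coeFn_V q F,
      Lp.coeFn_smul a (h.e 𝕂 q 0), h.coeFn_e (𝕂 := 𝕂) q 0] with x h1 h2 h3 h4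
    rw [h1, Pi.add_apply, h2, h3, Pi.smul_apply, h4]
    simp
  have e2 := h.integral_split (fun x => ‖F x + a‖^q.toReal) (fun x => ‖F x - a‖^q.toReal)
    (integrable_rpow q hq0 hq hFa) (integrable_rpow q hq0 hq hFb)
    (fun x => ‖F (T x) + a * (r x : 𝕂)‖^q.toReal)
    (fun x hx => by simp [hx]) (fun x hx => by simp [hx, sub_eq_add_neg])
  rw [e1, e2]
  have e3 : ∫ x, (‖F x‖^q.toReal + ‖a‖^q.toReal) ∂μ ≤
      ∫ x, (‖F x + a‖^q.toReal + ‖F x - a‖^q.toReal)/2 ∂μ := by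
    refine integral_mono ((integrable_rpow q hq0 hq hF).add (integrable_const _))
      (((integrable_rpow q hq0 hq hFa).add (integrable_rpow q hq0 hq hFb)).div_const 2)
      (fun x => clarkson_pt _ _ _ hQ)
  rw [integral_add (integrable_rpow q hq0 hq hF) (integrable_const _), integral_div] at e3
  simpa using e3

/-! ### square-summable Rademacher series in `L_q` -/

/-- the property that Khintchine holds in `L_q` with constant `K` -/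
def Kh (μ : Measure Ω) (T : Ω → Ω) (r : Ω → ℝ) (𝕂 : Type*) [RCLike 𝕂] (q : ℝ≥0∞) (K : ℝ) : Prop :=
  ∀ (n : ℕ) (a : ℕ → 𝕂), eLpNorm (rsum T r n a) q μ ≤
        ENNReal.ofReal (K * √(∑ i ∈ Finset.range n, ‖a i‖^2))

lemma Sys.coeFn_sum (h : Sys μ T r) (q : ℝ≥0∞) (n : ℕ) (a : ℕ → 𝕂) :
    ((∑ i ∈ Finset.range n, a i • h.e 𝕂 q i : Lp 𝕂 q μ) : Ω → 𝕂) =ᵐ[μ] rsum T r n a := by
  induction n with
  | zero =>
    simp only [Finset.range_zero, Finset.sum_empty]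
    refine (Lp.coeFn_zero 𝕂 q μ).trans ?_
    exact Eventually.of_forall (fun x => by simp [rsum])
  | succ n ih =>
    rw [Finset.sum_range_succ]
    filter_upwards [Lp.coeFn_add (∑ i ∈ Finset.range n, a i • h.e 𝕂 q i) (a n • h.e 𝕂 q n), ih,
      Lp.coeFn_smul (a n) (h.e 𝕂 q n), h.coeFn_e (𝕂 := 𝕂) q n] with x h1 h2 h3 h4
    rw [h1, Pi.add_apply, h2, h3, Pi.smul_apply, h4]
    simp [rsum, Finset.sum_range_succ]

lemma Sys.norm_sum_le (h : Sys μ T r) (q : ℝ≥0∞) [Fact (1 ≤ q)] {K : ℝ} (hK0 : 0 ≤ K)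
    (hK : Kh μ T r 𝕂 q K) (n : ℕ) (a : ℕ → 𝕂) :
    ‖∑ i ∈ Finset.range n, a i • h.e 𝕂 q i‖ ≤ K * √(∑ i ∈ Finset.range n, ‖a i‖^2) := by
  rw [Lp.norm_def, eLpNorm_congr_ae (h.coeFn_sum q n a)]
  refine ENNReal.toReal_le_of_le_ofReal (by positivity) (hK n a)

lemma Sys.norm_sum_le' (h : Sys μ T r) (q : ℝ≥0∞) [Fact (1 ≤ q)] {K : ℝ} (hK0 : 0 ≤ K)
    (hK : Kh μ T r 𝕂 q K) (s : Finset ℕ) (a : ℕ → 𝕂) :
    ‖∑ i ∈ s, a i • h.e 𝕂 q i‖ ≤ K * √(∑ i ∈ s, ‖a i‖^2) := by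
  classical
  obtain ⟨n, hn⟩ : ∃ n, s ⊆ Finset.range n := by
    refine ⟨s.sup id + 1, fun i hi => Finset.mem_range.mpr ?_⟩
    exact Nat.lt_succ_of_le (Finset.le_sup (f := id) hi)
  have := h.norm_sum_le q hK0 hK n (fun i => if i ∈ s then a i else 0)
  have e1 : ∑ i ∈ Finset.range n, (if i ∈ s then a i else 0) • h.e 𝕂 q i =
      ∑ i ∈ s, a i • h.e 𝕂 q i := by
    rw [← Finset.sum_subset hn]
    · exact Finset.sum_congr rfl (fun i hi => by rw [if_pos hi])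
    · intro i _ hi; rw [if_neg hi, zero_smul]
  have e2 : ∑ i ∈ Finset.range n, ‖(if i ∈ s then a i else 0)‖^2 =
      ∑ i ∈ s, ‖a i‖^2 := by
    rw [← Finset.sum_subset hn]
    · exact Finset.sum_congr rfl (fun i hi => by rw [if_pos hi])
    · intro i _ hi; rw [if_neg hi]; simp
  rwa [e1, e2] at this

lemma Sys.summable_J (h : Sys μ T r) (q : ℝ≥0∞) [Fact (1 ≤ q)] {K : ℝ} (hK0 : 0 ≤ K)
    (hK : Kh μ T r 𝕂 q K) (b : ℕ → 𝕂) (hb : Summable (fun i => ‖b i‖^2)) :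
    Summable (fun i => b i • h.e 𝕂 q i) := by
  rw [summable_iff_vanishing_norm]
  intro ε hε
  obtain ⟨s, hs⟩ := summable_iff_vanishing_norm.mp hb ((ε/(K+1))^2) (by positivity)
  refine ⟨s, fun t ht => ?_⟩
  have h1 := hs t ht
  rw [Real.norm_of_nonneg (Finset.sum_nonneg (fun i _ => by positivity))] at h1
  have h2 : √(∑ i ∈ t, ‖b i‖^2) < ε/(K+1) := by
    rw [Real.sqrt_lt' (by positivity)]; exact h1
  calc ‖∑ i ∈ t, b i • h.e 𝕂 q i‖ ≤ K * √(∑ i ∈ t, ‖b i‖^2) := h.norm_sum_le' q hK0 hK t b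
    _ ≤ (K+1) * √(∑ i ∈ t, ‖b i‖^2) := by gcongr; linarith
    _ < (K+1) * (ε/(K+1)) := by gcongr
    _ = ε := by field_simp

section J
variable (𝕂)
/-- the sum of a Rademacher series -/
noncomputable def Sys.J (h : Sys μ T r) (q : ℝ≥0∞) [Fact (1 ≤ q)] (b : ℕ → 𝕂) : Lp 𝕂 q μ :=
  ∑' i, b i • h.e 𝕂 q i
end J

lemma Sys.norm_J_le (h : Sys μ T r) (q : ℝ≥0∞) [Fact (1 ≤ q)] {K : ℝ} (hK0 : 0 ≤ K)
    (hK : Kh μ T r 𝕂 q K) (b : ℕ → 𝕂) (hb : Summable (fun i => ‖b i‖^2)) :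
    ‖h.J 𝕂 q b‖ ≤ K * √(∑' i, ‖b i‖^2) := by
  have h1 := (h.summable_J q hK0 hK b hb).hasSum.norm
  refine le_of_tendsto h1 (Eventually.of_forall (fun s => ?_))
  refine (h.norm_sum_le' q hK0 hK s b).trans ?_
  have := hb.sum_le_tsum s (fun i _ => by positivity)
  gcongr

/-- shift of a sequence -/
def shift (b : ℕ → 𝕂) : ℕ → 𝕂
  | 0 => 0
  | i+1 => b i

/-- truncation: erase the first `N` entries -/
def trunc (N : ℕ) (b : ℕ → 𝕂) : ℕ → 𝕂 := fun i => if N ≤ i then b i else 0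

lemma shift_sq (b : ℕ → 𝕂) (hb : Summable (fun i => ‖b i‖^2)) :
    Summable (fun i => ‖shift b i‖^2) := by
  rw [← summable_nat_add_iff 1]
  exact hb

lemma trunc_sq (N : ℕ) (b : ℕ → 𝕂) (hb : Summable (fun i => ‖b i‖^2)) :
    Summable (fun i => ‖trunc N b i‖^2) := by
  refine Summable.of_nonneg_of_le (fun i => by positivity) (fun i => ?_) hb
  unfold trunc
  split_ifs
  · exact le_rfl
  · simp

lemma tail_sq (b : ℕ → 𝕂) (hb : Summable (fun i => ‖b i‖^2)) :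
    Summable (fun i => ‖b (i+1)‖^2) := (summable_nat_add_iff (f := fun i => ‖b i‖^2) 1).mpr hb

lemma trunc_zero (b : ℕ → 𝕂) : trunc 0 b = b := by funext i; simp [trunc]

lemma trunc_succ (N : ℕ) (b : ℕ → 𝕂) :
    trunc (N+1) b = shift (trunc N (fun i => b (i+1))) := by
  funext i
  cases i with
  | zero => simp [trunc, shift]
  | succ i => simp [trunc, shift]

lemma Sys.V_J (h : Sys μ T r) (q : ℝ≥0∞) [Fact (1 ≤ q)] {K : ℝ} (hK0 : 0 ≤ K)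
    (hK : Kh μ T r 𝕂 q K) (b : ℕ → 𝕂) (hb : Summable (fun i => ‖b i‖^2)) :
    h.V 𝕂 q (h.J 𝕂 q b) = h.J 𝕂 q (shift b) := by
  unfold Sys.J
  have h1 := (h.V 𝕂 q).toContinuousLinearMap.hasSum (h.summable_J q hK0 hK b hb).hasSum
  have h2 := h.summable_J q hK0 hK (shift b) (shift_sq b hb)
  rw [h2.tsum_eq_zero_add]
  simp only [shift, zero_smul, zero_add]
  have h3 := h1.tsum_eq
  simp only [LinearIsometry.coe_toContinuousLinearMap, map_smul] at h3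
  rw [← h3]
  refine tsum_congr (fun i => ?_)
  rw [h.V_e]

lemma Sys.J_decomp (h : Sys μ T r) (q : ℝ≥0∞) [Fact (1 ≤ q)] {K : ℝ} (hK0 : 0 ≤ K)
    (hK : Kh μ T r 𝕂 q K) (b : ℕ → 𝕂) (hb : Summable (fun i => ‖b i‖^2)) :
    h.J 𝕂 q b = h.V 𝕂 q (h.J 𝕂 q (fun i => b (i+1))) + b 0 • h.e 𝕂 q 0 := by
  rw [h.V_J q hK0 hK _ (tail_sq b hb)]
  unfold Sys.J
  have h2 := h.summable_J q hK0 hK b hb
  have h3 := h.summable_J q hK0 hK _ (shift_sq _ (tail_sq b hb))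
  rw [h2.tsum_eq_zero_add, h3.tsum_eq_zero_add]
  simp only [shift, zero_smul, zero_add]
  rw [add_comm]

/-- iterated drop inequality -/
lemma Sys.drop (h : Sys μ T r) (q : ℝ≥0∞) [Fact (1 ≤ q)] (h2 : 2 ≤ q) (hq : q ≠ ∞)
    {K : ℝ} (hK0 : 0 ≤ K)
    (hK : Kh μ T r 𝕂 q K) (N : ℕ) : ∀ (α : 𝕂) (b : ℕ → 𝕂) (_ : Summable (fun i => ‖b i‖^2)),
    ‖α • one 𝕂 μ q + h.J 𝕂 q (trunc (N+1) b)‖^q.toReal + ‖b N‖^q.toReal ≤
      ‖α • one 𝕂 μ q + h.J 𝕂 q (trunc N b)‖^q.toReal := by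
  induction N with
  | zero =>
    intro α b hb
    rw [trunc_succ, trunc_zero, trunc_zero, ← h.V_J q hK0 hK _ (tail_sq b hb),
      h.J_decomp q hK0 hK b hb]
    have h3 : α • one 𝕂 μ q + h.V 𝕂 q (h.J 𝕂 q (fun i => b (i+1))) =
        h.V 𝕂 q (α • one 𝕂 μ q + h.J 𝕂 q (fun i => b (i+1))) := by
      rw [map_add, map_smul, h.V_one]
    rw [← add_assoc, h3]
    have := h.drop0 q h2 hq (α • one 𝕂 μ q + h.J 𝕂 q (fun i => b (i+1))) (b 0)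
    rwa [LinearIsometry.norm_map]
  | succ N ih =>
    intro α b hb
    have h3 : ∀ c : ℕ → 𝕂, Summable (fun i => ‖c i‖^2) →
        ‖α • one 𝕂 μ q + h.J 𝕂 q (shift c)‖ = ‖α • one 𝕂 μ q + h.J 𝕂 q c‖ := by
      intro c hc
      rw [← h.V_J q hK0 hK c hc]
      have : α • one 𝕂 μ q + h.V 𝕂 q (h.J 𝕂 q c) = h.V 𝕂 q (α • one 𝕂 μ q + h.J 𝕂 q c) := by
        rw [map_add, map_smul, h.V_one]
      rw [this, LinearIsometry.norm_map]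
    rw [trunc_succ (N+1) b, trunc_succ N b, h3 _ (trunc_sq _ _ (tail_sq b hb)),
      h3 _ (trunc_sq _ _ (tail_sq b hb))]
    exact ih α (fun i => b (i+1)) (tail_sq b hb)

end WMPProj
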