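import Pool.Agent.Lib_helper50.WMP.Moments

open Filter Topology MeasureTheory

namespace WMPProj

variable {Ω : Type*} [MeasurableSpace Ω]

/-- A measure preserving map together with a `±1`-valued function independent of it. -/
structure Sys (μ : Measure Ω) (T : Ω → Ω) (r : Ω → ℝ) : Prop where
  mp : MeasurePreserving T μ μ
  meas : Measurable r
  sq : ∀ x, r x = 1 ∨ r x = -1
  ind : ∀ g : Ω → ℝ, Integrable g μ → ∫ x, r x * g (T x) ∂μ = 0

variable {μ : Measure Ω} [IsProbabilityMeasure μ] {T : Ω → Ω} {r : Ω → ℝ}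
  {𝕂 : Type*} [RCLike 𝕂]

lemma Sys.abs_r (h : Sys μ T r) (x : Ω) : |r x| = 1 := by
  rcases h.sq x with h | h <;> simp [h]

lemma Sys.norm_r (h : Sys μ T r) (x : Ω) : ‖(r x : 𝕂)‖ = 1 := by
  rw [RCLike.norm_ofReal, h.abs_r]

/-- `𝕂`-valued version of independence -/
lemma Sys.indK (h : Sys μ T r) (g : Ω → 𝕂) (hg : Integrable g μ) :
    ∫ x, (r x : 𝕂) * g (T x) ∂μ = 0 := by
  have hgT : Integrable (fun x => g (T x)) μ := h.mp.integrable_comp_of_integrable hg
  have hint : Integrable (fun x => (r x : 𝕂) * g (T x)) μ := by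
    refine hgT.bdd_mul (c := 1) ?_ ?_
    · exact (RCLike.continuous_ofReal.measurable.comp h.meas).aestronglyMeasurable
    · exact Eventually.of_forall (fun x => (h.norm_r x).le)
  rw [← integral_re_add_im hint]
  have h1 : ∫ x, RCLike.re ((r x : 𝕂) * g (T x)) ∂μ = 0 := by
    have := h.ind (fun x => RCLike.re (g x)) hg.re
    simpa [RCLike.re_ofReal_mul] using this
  have h2 : ∫ x, RCLike.im ((r x : 𝕂) * g (T x)) ∂μ = 0 := by
    have := h.ind (fun x => RCLike.im (g x)) hg.im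
    simpa [RCLike.im_ofReal_mul] using this
  rw [h1, h2]; simp

lemma Sys.integral_split (h : Sys μ T r) (g1 g2 : Ω → ℝ) (hg1 : Integrable g1 μ)
    (hg2 : Integrable g2 μ) (u : Ω → ℝ) (hu1 : ∀ x, r x = 1 → u x = g1 (T x))
    (hu2 : ∀ x, r x = -1 → u x = g2 (T x)) :
    ∫ x, u x ∂μ = (∫ x, (g1 x + g2 x) ∂μ) / 2 := by
  have hu : ∀ x, u x = (g1 (T x) + g2 (T x)) / 2 + r x * ((g1 (T x) - g2 (T x))/2) := by
    intro x
    rcases h.sq x with hx | hx
    · rw [hu1 x hx, hx]; ring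
    · rw [hu2 x hx, hx]; ring
  have hi1 : Integrable (fun x => (g1 (T x) + g2 (T x)) / 2) μ :=
    h.mp.integrable_comp_of_integrable ((hg1.add hg2).div_const 2)
  have hi2' : Integrable (fun x => (g1 (T x) - g2 (T x)) / 2) μ :=
    h.mp.integrable_comp_of_integrable ((hg1.sub hg2).div_const 2)
  have hi2 : Integrable (fun x => r x * ((g1 (T x) - g2 (T x))/2)) μ := by
    refine hi2'.bdd_mul (c := 1) h.meas.aestronglyMeasurable ?_
    exact Eventually.of_forall (fun x => by rw [Real.norm_eq_abs, h.abs_r])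
  simp_rw [hu]
  rw [integral_add hi1 hi2]
  have := h.ind (fun x => (g1 x - g2 x)/2) ((hg1.sub hg2).div_const 2)
  rw [this, add_zero]
  have h3 : ∫ x, (g1 (T x) + g2 (T x)) / 2 ∂μ = ∫ x, (g1 x + g2 x) / 2 ∂μ := by
    have h4 := h.mp.map_eq
    have h5 : AEStronglyMeasurable (fun x => (g1 x + g2 x)/2) (Measure.map T μ) := by
      rw [h4]; exact ((hg1.add hg2).div_const 2).aestronglyMeasurable
    have := integral_map h.mp.measurable.aemeasurable h5
    rw [h4] at this
    exact this.symm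
  rw [h3, integral_div]

/-- finite Rademacher sum -/
noncomputable def rsum (T : Ω → Ω) (r : Ω → ℝ) : ℕ → (ℕ → 𝕂) → Ω → 𝕂 :=
  fun n a x => ∑ i ∈ Finset.range n, a i * (r (T^[i] x) : 𝕂)

lemma rsum_succ (n : ℕ) (a : ℕ → 𝕂) (x : Ω) :
    rsum T r (n+1) a x = rsum T r n (fun i => a (i+1)) (T x) + a 0 * (r x : 𝕂) := by
  unfold rsum
  rw [Finset.sum_range_succ']
  simp [Function.iterate_succ_apply]

lemma Sys.measurable_iter (h : Sys μ T r) (i : ℕ) : Measurable (fun x => (r (T^[i] x) : 𝕂)) :=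
  RCLike.continuous_ofReal.measurable.comp (h.meas.comp (h.mp.measurable.iterate i))

lemma Sys.rsum_measurable (h : Sys μ T r) (n : ℕ) (a : ℕ → 𝕂) : Measurable (rsum T r n a) := by
  unfold rsum
  exact Finset.measurable_sum _ (fun i _ => (h.measurable_iter i).const_mul (a i))

lemma Sys.rsum_bound (h : Sys μ T r) (n : ℕ) (a : ℕ → 𝕂) (x : Ω) :
    ‖rsum T r n a x‖ ≤ ∑ i ∈ Finset.range n, ‖a i‖ := by
  unfold rsum
  refine (norm_sum_le _ _).trans (Finset.sum_le_sum (fun i _ => ?_))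
  rw [norm_mul, h.norm_r, mul_one]

lemma Sys.rsum_pow_integrable (h : Sys μ T r) (n : ℕ) (a : ℕ → 𝕂) (b : 𝕂) (m : ℕ) :
    Integrable (fun x => ‖rsum T r n a x + b‖^m) μ := by
  refine Integrable.of_bound (C := (∑ i ∈ Finset.range n, ‖a i‖ + ‖b‖)^m) ?_ ?_
  · exact (((h.rsum_measurable n a).add_const b).norm.pow_const m).aestronglyMeasurable
  · refine Eventually.of_forall (fun x => ?_)
    rw [norm_pow, norm_norm]
    exact pow_le_pow_left₀ (norm_nonneg _) ((norm_add_le _ _).trans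
      (add_le_add (h.rsum_bound n a x) le_rfl)) m

/-- even-moment Khintchine inequality with the gaussian constants -/
lemma Sys.moment (h : Sys μ T r) (n : ℕ) : ∀ (a : ℕ → 𝕂) (m : ℕ),
    ∫ x, ‖rsum T r n a x‖^(2*m) ∂μ ≤ gm m * (∑ i ∈ Finset.range n, ‖a i‖^2)^m := by
  induction n with
  | zero =>
    intro a m
    simp only [rsum, Finset.range_zero, Finset.sum_empty, norm_zero]
    rcases Nat.eq_zero_or_pos m with rfl | hm
    · simp [gm_zero]
    · rw [zero_pow (by omega : 2*m ≠ 0), zero_pow (by omega : m ≠ 0)]; simp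
  | succ n ih =>
    intro a m
    set a' : ℕ → 𝕂 := fun i => a (i+1) with ha'
    set s : ℝ := ∑ i ∈ Finset.range n, ‖a' i‖^2 with hs
    have hs0 : 0 ≤ s := Finset.sum_nonneg (fun i _ => by positivity)
    have h1 : ∫ x, ‖rsum T r (n+1) a x‖^(2*m) ∂μ =
        (∫ x, (‖rsum T r n a' x + a 0‖^(2*m) + ‖rsum T r n a' x + -(a 0)‖^(2*m)) ∂μ) / 2 := by
      refine h.integral_split (fun x => ‖rsum T r n a' x + a 0‖^(2*m))
        (fun x => ‖rsum T r n a' x + -(a 0)‖^(2*m)) (h.rsum_pow_integrable n a' _ _)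
        (h.rsum_pow_integrable n a' _ _) _ ?_ ?_
      · intro x hx
        simp only [rsum_succ, hx]; simp [ha']
      · intro x hx
        simp only [rsum_succ, hx]; simp [ha']
    rw [h1]
    have h2 : ∫ x, (‖rsum T r n a' x + a 0‖^(2*m) + ‖rsum T r n a' x + -(a 0)‖^(2*m)) ∂μ ≤
        ∫ x, 2 * ∑ j ∈ Finset.range (m+1), ((2*m).choose (2*j) : ℝ) *
          ‖rsum T r n a' x‖^(2*j) * ‖a 0‖^(2*(m-j)) ∂μ := by
      refine integral_mono ((h.rsum_pow_integrable n a' _ _).add
        (h.rsum_pow_integrable n a' _ _)) ?_ (fun x => ?_)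
      · refine (integrable_finsetSum _ (fun j _ => ?_)).const_mul 2
        have := h.rsum_pow_integrable n a' 0 (2*j)
        simp only [add_zero] at this
        exact (this.const_mul _).mul_const _
      · rw [← sub_eq_add_neg]
        exact norm_pow_add_sub _ _ m
    have h3 : ∫ x, 2 * ∑ j ∈ Finset.range (m+1), ((2*m).choose (2*j) : ℝ) *
          ‖rsum T r n a' x‖^(2*j) * ‖a 0‖^(2*(m-j)) ∂μ =
        2 * ∑ j ∈ Finset.range (m+1), ((2*m).choose (2*j) : ℝ) *
          (∫ x, ‖rsum T r n a' x‖^(2*j) ∂μ) * ‖a 0‖^(2*(m-j)) := by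
      rw [integral_const_mul, integral_finsetSum]
      · congr 1
        refine Finset.sum_congr rfl (fun j _ => ?_)
        rw [integral_mul_const, integral_const_mul]
      · intro j _
        have := h.rsum_pow_integrable n a' 0 (2*j)
        simp only [add_zero] at this
        exact (this.const_mul _).mul_const _
    have h4 : ∑ j ∈ Finset.range (m+1), ((2*m).choose (2*j) : ℝ) *
          (∫ x, ‖rsum T r n a' x‖^(2*j) ∂μ) * ‖a 0‖^(2*(m-j)) ≤
        gm m * (s + ‖a 0‖^2)^m := by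
      rw [add_pow, Finset.mul_sum]
      refine Finset.sum_le_sum (fun j hj => ?_)
      have hjm : j ≤ m := by have := Finset.mem_range.mp hj; omega
      have e1 := ih a' j
      have e2 := choose_gm m j hjm
      calc ((2*m).choose (2*j) : ℝ) * (∫ x, ‖rsum T r n a' x‖^(2*j) ∂μ) * ‖a 0‖^(2*(m-j))
          ≤ ((2*m).choose (2*j) : ℝ) * (gm j * s^j) * ‖a 0‖^(2*(m-j)) := by
            refine mul_le_mul_of_nonneg_right (mul_le_mul_of_nonneg_left e1 (by positivity))
              (by positivity)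
        _ = (((2*m).choose (2*j) : ℝ) * gm j) * (s^j * ‖a 0‖^(2*(m-j))) := by ring
        _ ≤ (gm m * (m.choose j : ℝ)) * (s^j * ‖a 0‖^(2*(m-j))) :=
            mul_le_mul_of_nonneg_right e2 (by positivity)
        _ = gm m * (s^j * (‖a 0‖^2)^(m-j) * (m.choose j : ℝ)) := by rw [← pow_mul]; ring
    have h5 : ∑ i ∈ Finset.range (n+1), ‖a i‖^2 = s + ‖a 0‖^2 := by
      rw [Finset.sum_range_succ']
    rw [h5]
    linarith [h2, h3, h4]

end WMPProj
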